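import Pool.Agent.Rohlin.Octic.O13.Ovals

/-!
# The octic O13: subdivision trees, part 0
-/

set_option autoImplicit false

namespace Pool.Agent.Rohlin.Octic.O13

open Pool.Agent.Rohlin.Cone

/-- tree -/
def t0 : Tr :=
  (.rot (.cut 1 5 (.rot (.cut 1 524288 (.rot (.rot (.cut 4096 1 (.cut 524288 1 (.rot (.cut 13 1 (.cut 512 1 (.R 7 1 true) (.rot (.cut 1 67108864 (.rot (.rot (.cut 1 9 .N (.rot (.cut 3 1 (.rot (.rot (.cut 1 19 .N (.rot (.cut 6 1 (.rot (.rot (.cut 1 38 .N (.rot (.cut 12 1 (.cut 24 1 (.R 5 0 true) (.rot (.cut 4 1 .N (.rot (.rot (.cut 4 1 (.R 5 0 true) .N)))))) .N))))) .N))))) .N))))) (.R 7 1 true)))) (.rot (.cut 1 1048576 (.rot (.rot (.cut 1 45 (.cut 7 1 (.rot (.rot (.cut 3 1 .N (.rot (.cut 21 1 (.rot (.rot (.cut 1 2 .N (.rot (.cut 41 1 (.rot (.rot (.cut 1 4 .N (.rot (.cut 64 1 (.rot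 (.rot (.cut 1 8 .N (.rot (.cut 128 1 (.R 5 0 true) .N))))) .N))))) .N))))) .N))))) .N) (.rot (.cut 16 1 (.rot (.rot (.cut 1 256 .N (.rot (.cut 64 1 (.rot (.rot (.cut 1 512 (.cut 2 1 (.R 7 2 true) .P) .P))) (.R 7 2 true)))))) .N))))) (.rot (.cut 67108864 1 (.R 7 1 true) (.cut 1 3 .N (.rot (.cut 1 3 (.rot (.rot (.cut 1 6 .N (.rot (.cut 2 1 (.rot (.rot (.cut 1 12 .N (.rot (.cut 4 1 (.rot (.cut 3 1 (.rot (.rot (.cut 8 1 (.R 5 0 true) .N))) (.rot (.cut 1 24 .N (.R 5 0 true))))) .N))))) .N))))) .N))))))))) (.rot (.rot (.cut 1 13 (.rot (.rot (.cut 29 1 (.rot (.rot (.cut 1 512 (.rot (.rot (.cut 7 1 (.rot (.rot (.cut 1 10 .N (.rot (.cut 21 1 (.rot (.rot (.cut 1 28 .N (.cut 1 60 .N (.rot (.cut 46 1 (.rot (.rot (.cut 1 128 .N (.rot (.cut 128 1 (.cut 256 1 .N (.R 6 0 true)) (.cut 1 2 (.R 6 0 true) .N))))))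 .N)))))) .N))))) (.rot (.cut 4 1 (.rot (.rot (.cut 1 3 .N (.rot (.cut 9 1 (.rot (.rot (.cut 1 7 .N (.rot (.cut 18 1 (.rot (.rot (.cut 1 15 (.rot (.rot (.cut 1 3 .P (.rot (.cut 2 1 (.rot (.rot (.cut 1 5 (.cut 2 1 (.R 5 0 true) .N) .N))) (.R 5 0 true)))))) .P))) (.cut 1 2 (.rot (.cut 1 5 (.cut 2 1 (.rot (.rot (.cut 2 1 (.R 5 0 true) (.cut 1 2 (.R 5 0 true) .N)))) (.R 5 0 true)) (.rot (.cut 3 1 (.cut 5 1 .N (.cut 1 2 .N (.R 5 0 true))) (.R 5 0 true))))) .N)))))) .N))))) .N))))) (.rot (.cut 512 1 (.R 7 1 true) (.rot (.cut 10 1 (.rot (.rot (.cut 1 5 .N (.rot (.cut 28 1 (.cut 60 1 .N .N) .N))))) .N))))))) (.rot (.cut 45 1 (.rot (.rot (.cut 1 5 (.rot (.cut 13 1 (.rot (.rot (.cut 3 1 .N (.R 7 2 true)))) (.rot (.cut 1 9 (.rot (.cut 3 2 (.rot (.rot (.cut 4 1 .N (.rot (.rot (.cut 2 3 (.rot (.rot (.cut 5 1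 (.rot (.rot (.cut 1 24 (.cut 2 1 (.rot (.rot (.cut 2 1 (.R 6 0 true) .N))) (.R 6 0 true)) .P))) (.cut 1 2 (.cut 2 1 (.rot (.rot (.cut 1 2 .N (.R 6 0 true)))) .N) .N)))) (.cut 1 6 (.rot (.rot (.cut 24 1 (.rot (.rot (.cut 1 40 (.rot (.rot (.cut 3 4 (.R 6 0 true) (.rot (.cut 2 1 .N (.R 6 0 true)))))) .P))) (.cut 1 2 (.rot (.rot (.cut 4 3 .N (.R 6 0 true)))) .N)))) (.rot (.cut 1 2 (.rot (.cut 8 1 (.rot (.rot (.cut 2 1 .N (.cut 1 2 .N (.R 6 0 true))))) .N)) (.rot (.cut 40 1 .P (.rot (.cut 1 8 (.rot (.rot (.cut 1 2 (.R 6 0 true) .N))) (.R 6 0 true)))))))))))))) .N)) (.rot (.rot (.cut 2 3 .N (.rot (.rot (.cut 256 1 (.rot (.rot (.cut 1 37 (.R 6 0 true) (.cut 1 64 (.R 6 0 true) (.rot (.cut 512 1 (.rot (.rot (.cut 1 128 (.R 6 0 true) .N))) (.R 6 0 true))))))) (.rot (.cut 1 5 (.rot (.rot (.cut 1 2 (.R 6 0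 true) (.rot (.rot (.cut 2 1 (.rot (.rot (.cut 2 1 .N (.cut 1 2 .N (.R 6 0 true))))) .N)))))) (.R 6 0 true))))))))))))) (.rot (.cut 256 1 (.cut 512 1 .P (.cut 1 2 .P (.R 7 2 true))) (.rot (.cut 1 13 .N (.R 7 2 true)))))))) (.rot (.cut 1 7 (.rot (.rot (.cut 1 7 (.rot (.rot (.cut 2 1 .N (.cut 1 3 .N .N)))) (.rot (.cut 3 1 (.rot (.rot (.cut 1 21 .N (.rot (.cut 7 1 (.rot (.rot (.cut 1 41 .N (.cut 1 64 .N (.rot (.cut 15 1 (.rot (.rot (.cut 1 128 (.rot (.rot (.cut 4 1 (.R 5 0 true) (.cut 1 2 (.R 5 0 true) .N)))) (.R 5 0 true)))) (.rot (.cut 9 1 (.rot (.rot (.cut 1 2 (.R 5 0 true) .N))) (.rot (.cut 1 4 (.cut 2 1 .N (.R 5 0 true)) (.R 5 0 true))))))))))) .N))))) .N))))) (.rot (.rot (.cut 1 2 (.rot (.rot (.cut 9 1 (.rot (.rot (.cut 1 64 (.rot (.rot (.cut 3 2 (.R 6 0 true) (.cut 1 4 (.rot (.cut 1 4 (.rot (.rot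 (.cut 2 1 (.R 6 0 true) .N))) (.R 6 0 true))) .N)))) (.cut 1 256 (.R 6 0 true) (.rot (.cut 37 1 (.rot (.rot (.cut 1 512 .P (.rot (.cut 64 1 (.rot (.rot (.cut 1 1024 (.R 6 0 true) (.rot (.cut 128 1 .N (.R 6 0 true)))))) .P))))) .P)))))) (.rot (.cut 3 1 (.rot (.rot (.cut 1 4 (.rot (.cut 1 1 (.rot (.rot (.cut 2 1 (.R 6 0 true) (.rot (.rot (.cut 3 4 .N (.cut 1 8 .N (.rot (.cut 1 2 (.cut 2 1 (.R 6 0 true) .N) .N))))))))) (.R 6 0 true))) .N))) (.rot (.cut 2 3 (.cut 4 1 .N (.rot (.rot (.cut 3 1 (.R 6 0 true) (.rot (.cut 1 2 .N (.R 6 0 true))))))) (.R 6 0 true)))))))) (.rot (.cut 1 21 .N (.rot (.cut 64 1 (.rot (.rot (.cut 1 46 .N (.rot (.cut 256 1 (.rot (.rot (.cut 1 128 (.cut 2 1 (.rot (.rot (.cut 1 5 (.R 6 0 true) (.cut 1 10 (.R 6 0 true) .N)))) (.R 6 0 true)) (.rot (.cut 512 1 (.rot (.rot (.cut 1 256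 (.R 6 0 true) (.rot (.cut 1024 1 .N (.R 6 0 true)))))) .P))))) (.rot (.rot (.cut 5 1 (.cut 10 1 .N (.R 6 0 true)) (.R 6 0 true))))))))) .N)))))))))))))) (.rot (.rot (.cut 512 1 (.cut 2048 1 .P (.rot (.rot (.cut 1024 1 (.rot (.rot (.cut 1 1024 (.cut 7 1 (.R 7 1 true) (.R 7 1 true)) (.R 7 1 true)))) (.R 7 1 true))))) (.rot (.cut 1 512 (.rot (.rot (.cut 1 4 .N (.rot (.cut 9 1 (.rot (.rot (.cut 1 9 .N (.rot (.cut 19 1 (.rot (.cut 1 2 (.rot (.rot (.cut 38 1 (.rot (.rot (.cut 1 64 (.rot (.rot (.cut 1 1 (.R 5 0 true) (.rot (.cut 2 1 .N (.R 5 0 true)))))) (.R 5 0 true)))) .N))) (.rot (.cut 1 18 (.cut 2 1 .N (.rot (.cut 2 1 (.rot (.cut 1 2 (.R 5 0 true) (.rot (.cut 1 2 (.cut 2 1 .N (.R 5 0 true)) (.R 5 0 true))))) (.rot (.rot (.cut 2 1 .N (.rot (.rot (.cut 4 1 (.rot (.rot (.cut 1 2 (.cut 2 1 (.R 5 0 true)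 .N) .N))) (.R 5 0 true)))))))))) (.rot (.cut 64 1 .P (.rot (.cut 1 2 (.rot (.rot (.cut 1 2 (.R 5 0 true) (.rot (.cut 2 1 .N (.cut 1 2 .N (.R 5 0 true))))))) .P)))))))) .N))))) .N))))) (.rot (.cut 1024 1 (.R 7 1 true) .N))))))))))) (.rot (.cut 2048 1 (.cut 32768 1 .P (.rot (.rot (.cut 256 1 (.rot (.rot (.cut 1 128 (.cut 11 1 (.rot (.rot (.cut 1 16 (.rot (.rot (.cut 1 2 .N (.rot (.cut 4 1 (.rot (.rot (.cut 1 4 (.R 7 1 true) (.rot (.cut 8 1 .P (.R 7 1 true)))))) .N))))) (.cut 1 63 (.R 7 2 true) (.rot (.cut 38 1 .P (.R 7 2 true))))))) (.rot (.rot (.cut 2 1 (.rot (.rot (.cut 5 1 (.R 7 1 true) (.rot (.cut 4 1 .P (.R 7 1 true)))))) .N)))) (.rot (.rot (.cut 1 5 .P (.R 7 1 true))))))) (.rot (.rot (.cut 16 1 (.rot (.rot (.cut 1 4 (.R 7 2 true) (.rot (.cut 63 1 .P (.R 7 2 true)))))) (.rot (.cut 1 6 (.rot (.rot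 (.cut 1 4 (.rot (.rot (.cut 1 1 (.cut 2 1 (.rot (.rot (.cut 3 4 (.R 7 1 true) .P))) (.R 7 1 true)) .N))) (.cut 1 8 (.rot (.rot (.cut 4 3 .P (.R 7 1 true)))) .P)))) (.rot (.rot (.cut 1 1 (.R 7 2 true) (.cut 1 2 (.F 7 true) .P))))))))))))) (.rot (.rot (.cut 128 1 (.rot (.cut 1 22 (.rot (.cut 1 4096 (.F 7 true) (.R 7 1 true))) (.rot (.cut 1 29 (.cut 5 1 .P (.cut 1 3 (.R 7 2 true) (.rot (.cut 14 1 .N (.R 7 2 true))))) (.rot (.cut 4096 1 (.rot (.rot (.cut 1 512 .N (.R 7 1 true)))) (.rot (.cut 1 14 (.F 7 true) .N)))))))) (.rot (.rot (.cut 22 1 .P (.rot (.cut 1 11 (.F 7 true) (.cut 1 38 (.R 7 2 true) .P)))))))))))))) (.rot (.rot (.cut 1048576 1 (.F 7 true) (.rot (.cut 1 2147483648 (.rot (.cut 1 18 (.cut 256 1 (.rot (.cut 1 2048 (.R 7 2 true) .P)) (.rot (.rot (.cut 2048 1 (.rot (.rot (.cut 1 256 (.rot (.rot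 (.cut 1 12 (.R 7 2 true) (.rot (.cut 3 1 .N (.R 7 2 true)))))) .P))) (.rot (.rot (.cut 12 1 .N (.R 7 2 true)))))))) (.cut 1 256 (.rot (.rot (.cut 256 1 (.rot (.rot (.cut 1 8192 (.rot (.rot (.cut 3 1 (.R 7 2 true) .N))) (.cut 1 32768 (.rot (.rot (.cut 5 1 .P (.rot (.cut 2 1 (.R 7 2 true) .P))))) .P)))) (.cut 1 3 (.rot (.rot (.cut 1 3 .N (.R 7 2 true)))) .N)))) (.rot (.cut 1 16 .N (.rot (.cut 8192 1 (.rot (.rot (.cut 1 64 (.R 7 2 true) (.rot (.cut 32768 1 .P (.cut 1 2 .P (.R 7 2 true))))))) .N))))))) (.rot (.rot (.cut 18 1 .N (.cut 1 256 .N (.rot (.rot (.cut 140737488355328 1 (.rot (.rot (.cut 1 17179869184 (.R 7 2 true) (.cut 1 17179869184 (.R 7 2 true) .N)))) (.R 7 2 true))))))))))))))) (.rot (.cut 1 2048 (.rot (.rot (.cut 1 16384 (.rot (.cut 1 9 (.rot (.rot (.cut 128 1 .P (.rot (.cut 19 1 .P (.rot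 (.rot (.cut 2 1 .P (.rot (.rot (.cut 6 1 (.cut 14 1 (.rot (.cut 1 9 .P (.rot (.rot (.cut 64 1 (.rot (.rot (.cut 1 4 (.cut 3 1 .P (.rot (.rot (.cut 1 7 (.rot (.rot (.cut 16 1 (.R 4 0 true) .P))) (.rot (.cut 1 3 (.cut 2 1 .P (.R 4 0 true)) (.R 4 0 true))))))) (.cut 1 10 (.rot (.rot (.cut 1 16 .P (.R 4 0 true)))) .P)))) .P))))) .P) .P))))))))))) (.rot (.cut 1 26 .P (.rot (.cut 512 1 (.rot (.rot (.cut 1 256 (.rot (.cut 4 1 (.rot (.rot (.cut 3 1 (.cut 9 1 .P (.rot (.rot (.cut 1 2 (.rot (.rot (.cut 5 1 (.cut 10 1 (.rot (.rot (.cut 1 12 (.cut 2 1 .P (.R 7 2 true)) (.R 7 2 true)))) .P) .P))) (.cut 1 5 (.cut 2 1 (.rot (.rot (.cut 12 1 (.R 7 2 true) (.cut 1 2 (.R 7 2 true) .P)))) (.R 7 2 true)) (.R 7 2 true)))))) (.cut 1 2 (.rot (.rot (.cut 1 5 .P (.cut 1 10 .P (.rot (.cut 2 1 (.R 7 2 true) (.cut 1 2 (.R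 7 2 true) .P))))))) .P)))) .P)) .P))) .P)))))) (.rot (.cut 16384 1 (.rot (.rot (.cut 1 2097152 (.rot (.cut 1 3 (.rot (.cut 1 12 (.rot (.rot (.cut 3 1 (.rot (.rot (.cut 1 7 .P (.rot (.cut 7 1 (.rot (.rot (.cut 1 18 .P (.R 4 0 true)))) .P))))) (.rot (.cut 3 1 (.cut 7 1 (.R 4 0 true) (.rot (.rot (.cut 7 1 .P (.rot (.cut 1 2 (.R 4 0 true) .P)))))) .P))))) (.rot (.cut 5 1 .P (.rot (.cut 7 1 (.rot (.rot (.cut 1 3 .P (.rot (.cut 18 1 (.R 4 0 true) .P))))) .P)))))) (.rot (.rot (.cut 12 1 (.rot (.rot (.cut 1 4 (.rot (.rot (.cut 1 11 (.cut 3 1 .P (.rot (.cut 1 7 (.rot (.rot (.cut 1 2 .P (.rot (.cut 2 1 (.rot (.rot (.cut 1 4 .P (.rot (.cut 4 1 (.rot (.rot (.cut 1 8 .P (.rot (.cut 8 1 (.rot (.rot (.cut 1 16 (.cut 2 1 (.rot (.rot (.cut 1 1 (.cut 2 1 (.R 4 0 true) .P) .P))) (.R 4 0 true)) .N))) (.cut 1 2 (.rot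 (.rot (.cut 1 1 .P (.rot (.cut 2 1 (.rot (.rot (.cut 1 2 .P (.rot (.cut 4 1 (.R 4 0 true) .P))))) .P))))) .P)))))) .P))))) .P))))) .P))) (.rot (.cut 3 1 .N (.cut 1 2 (.rot (.rot (.cut 1 12 (.rot (.rot (.cut 3 1 (.rot (.rot (.cut 1 7 (.rot (.rot (.cut 3 2 .P (.rot (.cut 2 1 (.rot (.rot (.cut 1 4 .P (.rot (.cut 4 1 (.rot (.rot (.cut 1 8 (.rot (.rot (.cut 1 1 (.R 4 0 true) (.rot (.cut 2 1 (.cut 4 1 .P (.R 4 0 true)) (.R 4 0 true)))))) .N))) (.rot (.rot (.cut 1 1 .P (.rot (.cut 1 2 (.rot (.rot (.cut 1 2 .P (.rot (.cut 2 1 (.cut 4 1 (.R 4 0 true) .P) .P))))) .P)))))))))) .P))))) .P))) (.rot (.rot (.cut 2 3 (.rot (.rot (.cut 2 1 (.rot (.rot (.cut 1 12 (.rot (.rot (.cut 3 1 (.rot (.rot (.cut 1 5 (.cut 2 1 .P (.rot (.rot (.cut 4 1 (.rot (.rot (.cut 1 2 (.R 4 0 true) (.cut 1 4 (.R 4 0 true) .P)))) (.R 4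 0 true))))) (.rot (.cut 5 1 .N (.rot (.cut 2 1 (.rot (.rot (.cut 1 2 .N (.rot (.cut 4 1 (.rot (.rot (.cut 1 4 (.R 4 0 true) .P))) (.R 4 0 true)))))) .N))))))) .P))) (.cut 1 26 (.rot (.rot (.cut 5 1 .N (.rot (.cut 2 1 (.rot (.rot (.cut 1 2 (.R 4 0 true) .P))) (.R 4 0 true)))))) .N)))) (.rot (.cut 4 1 (.rot (.cut 1 5 (.rot (.rot (.cut 8 1 .N (.rot (.cut 2 1 (.rot (.rot (.cut 1 2 .N (.rot (.cut 4 1 (.rot (.rot (.cut 1 4 (.R 4 0 true) .P))) (.R 4 0 true)))))) .N))))) .N)) (.rot (.cut 1 3 .P (.rot (.cut 5 1 (.rot (.rot (.cut 1 5 (.rot (.rot (.cut 1 2 .N (.rot (.cut 2 1 (.rot (.rot (.cut 1 4 (.R 4 0 true) (.rot (.cut 4 1 .P (.R 4 0 true)))))) .N))))) .N))) (.rot (.cut 4 3 (.rot (.rot (.cut 1 2 (.rot (.rot (.cut 1 4 (.cut 2 1 (.rot (.rot (.cut 2 1 (.R 4 0 true) .P))) (.R 4 0 true)) .N))) (.cut 1 4 (.rot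 (.rot (.cut 1 2 .P (.R 4 0 true)))) .P)))) (.cut 1 6 (.rot (.rot (.cut 4 1 (.rot (.rot (.cut 1 7 (.rot (.rot (.cut 1 1 (.R 4 0 true) (.rot (.cut 2 1 .P (.R 4 0 true)))))) .N))) (.rot (.rot (.cut 1 1 .P (.rot (.cut 1 2 (.R 4 0 true) .P)))))))) (.rot (.cut 2 1 (.cut 4 1 .P (.rot (.cut 3 1 (.R 4 0 true) .P))) (.rot (.cut 7 1 .N (.rot (.cut 1 3 (.rot (.rot (.cut 1 2 (.R 4 0 true) .P))) (.R 4 0 true))))))))))))))))))) (.rot (.cut 1 3 .P (.rot (.cut 12 1 (.rot (.rot (.cut 1 5 .P (.rot (.cut 26 1 (.rot (.rot (.cut 1 11 (.rot (.rot (.cut 1 5 .N (.rot (.cut 2 1 (.rot (.rot (.cut 1 10 (.R 4 0 true) (.rot (.cut 4 1 .P (.R 4 0 true)))))) .N))))) .N))) (.cut 1 2 (.rot (.rot (.cut 5 1 (.cut 10 1 .P (.R 4 0 true)) (.R 4 0 true)))) .P)))))) .P)))))))))) (.rot (.cut 2 1 (.rot (.rot (.cut 1 25 (.rot (.rot (.cut 5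 1 (.rot (.rot (.cut 1 10 (.rot (.rot (.cut 1 1 .P (.rot (.cut 2 1 (.rot (.rot (.cut 1 2 (.rot (.rot (.cut 1 2 (.rot (.rot (.cut 1 1 (.rot (.rot (.cut 1 2 (.rot (.rot (.cut 1 1 (.R 4 0 true) (.rot (.cut 2 1 .P (.R 4 0 true)))))) .N))) (.cut 1 2 (.rot (.rot (.cut 1 1 .P (.R 4 0 true)))) .P)))) (.rot (.cut 2 1 (.cut 4 1 .P (.rot (.cut 1 1 (.R 4 0 true) .P))) (.rot (.cut 2 1 .N (.rot (.cut 1 1 (.rot (.rot (.cut 1 2 (.R 4 0 true) .P))) (.R 4 0 true)))))))))) (.rot (.cut 4 1 .N (.rot (.cut 1 1 (.rot (.rot (.cut 1 2 .N (.rot (.cut 2 1 (.rot (.rot (.cut 1 4 (.R 4 0 true) .P))) (.R 4 0 true)))))) .N))))))) .P))))) .P))) (.rot (.cut 2 1 (.rot (.rot (.cut 1 2 (.rot (.rot (.cut 1 2 (.rot (.rot (.cut 1 1 (.rot (.rot (.cut 1 2 (.rot (.rot (.cut 1 1 (.rot (.rot (.cut 1 2 (.rot (.rot (.cut 1 1 (.R 4 0 true) (.rot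 (.cut 2 1 .P (.R 4 0 true)))))) .N))) (.rot (.rot (.cut 1 1 .P (.rot (.cut 1 2 (.R 4 0 true) .P)))))))) (.rot (.cut 2 1 (.cut 4 1 .P (.rot (.cut 1 1 (.rot (.rot (.cut 1 2 .P (.R 4 0 true)))) .P))) (.rot (.cut 2 1 .N (.rot (.cut 1 1 (.rot (.rot (.cut 1 2 (.R 4 0 true) .P))) (.R 4 0 true)))))))))) (.rot (.cut 2 1 .N (.rot (.cut 1 1 (.rot (.rot (.cut 1 2 .N (.rot (.cut 2 1 (.rot (.rot (.cut 1 4 (.R 4 0 true) .P))) (.R 4 0 true)))))) .N))))))) .P))) (.cut 1 4 (.rot (.rot (.cut 1 1 .N (.cut 1 2 .N (.rot (.cut 2 1 (.rot (.cut 1 1 (.rot (.rot (.cut 4 1 (.rot (.rot (.cut 1 8 (.rot (.rot (.cut 1 1 .P (.rot (.cut 2 1 (.R 4 0 true) .P))))) .P))) (.rot (.rot (.cut 1 1 (.R 4 0 true) (.rot (.cut 1 2 .P (.R 4 0 true))))))))) (.rot (.cut 1 4 (.cut 2 1 (.R 4 0 true) (.rot (.cut 1 1 .P (.R 4 0 true)))) (.rot (.cut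 8 1 .P (.rot (.cut 1 1 (.rot (.rot (.cut 1 2 .P (.R 4 0 true)))) .P)))))))) .N)))))) .N)))) (.rot (.cut 1 1 (.rot (.cut 1 1 (.rot (.rot (.cut 2 1 .N (.rot (.cut 2 1 (.rot (.rot (.cut 1 2 .N (.rot (.cut 4 1 (.rot (.rot (.cut 1 4 (.R 4 0 true) .P))) (.R 4 0 true)))))) .N))))) .N)) (.rot (.cut 2 1 .P (.rot (.cut 1 1 (.rot (.rot (.cut 1 2 (.rot (.rot (.cut 1 1 .N (.rot (.cut 2 1 (.rot (.rot (.cut 1 2 (.R 4 0 true) (.rot (.cut 4 1 .P (.R 4 0 true)))))) .N))))) .N))) (.rot (.cut 2 1 (.rot (.rot (.cut 1 2 (.rot (.rot (.cut 1 2 (.rot (.rot (.cut 1 1 (.R 4 0 true) (.rot (.cut 2 1 .P (.R 4 0 true)))))) .N))) (.rot (.rot (.cut 1 1 .P (.rot (.cut 1 4 (.R 4 0 true) .P)))))))) (.rot (.cut 1 1 (.cut 2 1 .P (.rot (.cut 1 1 (.R 4 0 true) .P))) (.rot (.cut 2 1 .N (.rot (.cut 1 1 (.rot (.rot (.cut 1 2 (.R 4 0 true)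 .P))) (.R 4 0 true)))))))))))))))))))) (.rot (.cut 4 1 (.rot (.rot (.cut 1 51 (.rot (.rot (.cut 5 1 (.rot (.rot (.cut 1 11 (.rot (.rot (.cut 1 1 (.rot (.cut 1 1 (.rot (.cut 1 4 (.R 4 0 true) (.rot (.cut 2 1 (.cut 4 1 .P (.R 4 0 true)) (.R 4 0 true))))) .P)) (.rot (.cut 2 1 .N (.rot (.cut 1 1 (.rot (.rot (.cut 1 2 (.R 4 0 true) .P))) (.R 4 0 true)))))))) .P))) (.cut 1 2 (.rot (.rot (.cut 1 1 .N (.rot (.cut 2 1 (.rot (.rot (.cut 1 2 .N (.cut 1 4 (.R 4 0 true) (.rot (.cut 4 1 .P (.R 4 0 true))))))) .N))))) .N)))) (.rot (.cut 8 1 (.rot (.cut 6 1 (.rot (.rot (.cut 16 1 .N (.rot (.cut 12 1 (.rot (.rot (.cut 1 2 (.R 4 0 true) .P))) (.R 4 0 true)))))) .N)) (.rot (.cut 11 1 .P (.rot (.cut 1 6 (.rot (.rot (.cut 1 2 (.rot (.rot (.cut 1 1 (.R 4 0 true) (.rot (.cut 2 1 .P (.R 4 0 true)))))) .N))) (.cut 1 12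 (.rot (.rot (.cut 1 1 .P (.R 4 0 true)))) .P)))))))))) (.rot (.cut 10 1 .P (.rot (.cut 1 5 (.rot (.rot (.cut 1 2 .P (.rot (.cut 2 1 (.rot (.rot (.cut 1 4 (.rot (.rot (.cut 1 1 .N (.rot (.cut 2 1 (.rot (.rot (.cut 1 2 (.R 4 0 true) (.rot (.cut 4 1 .P (.R 4 0 true)))))) .N))))) .N))) (.rot (.cut 2 1 (.rot (.rot (.cut 1 2 (.rot (.rot (.cut 1 2 (.rot (.rot (.cut 1 1 (.R 4 0 true) (.rot (.cut 2 1 .P (.R 4 0 true)))))) .N))) (.cut 1 4 (.rot (.rot (.cut 1 1 .P (.R 4 0 true)))) .P)))) (.rot (.cut 1 1 (.rot (.cut 1 1 (.rot (.rot (.cut 2 1 .P (.R 4 0 true)))) .P)) (.rot (.cut 2 1 .N (.rot (.cut 1 1 (.rot (.rot (.cut 1 2 (.R 4 0 true) .P))) (.R 4 0 true)))))))))))))) .P))))))))) (.rot (.cut 7 1 .P (.rot (.cut 1 5 (.rot (.rot (.cut 1 2 .P (.rot (.cut 2 1 (.rot (.rot (.cut 1 4 (.cut 2 1 .P (.rot (.cut 1 2 (.rot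 (.rot (.cut 1 2 .P (.rot (.cut 2 1 (.rot (.rot (.cut 1 4 .P (.R 4 0 true)))) .P))))) .P))) (.rot (.cut 4 1 .N (.cut 1 2 .N (.rot (.cut 2 1 (.rot (.rot (.cut 1 4 (.rot (.rot (.cut 1 1 .P (.rot (.cut 2 1 (.R 4 0 true) .P))))) .P))) (.cut 1 2 (.rot (.rot (.cut 1 1 (.R 4 0 true) .P))) (.R 4 0 true)))))))))) .P))))) .P))))))))) (.rot (.cut 7 1 .P (.rot (.cut 1 3 (.rot (.rot (.cut 1 2 .P (.rot (.cut 3 1 (.rot (.rot (.cut 1 4 .P (.rot (.cut 5 1 (.rot (.rot (.cut 1 8 (.cut 2 1 .P (.cut 1 2 .P (.rot (.cut 2 3 (.rot (.rot (.cut 1 4 .P (.R 4 0 true)))) .P)))) (.rot (.cut 11 1 .N (.cut 1 2 .N (.rot (.cut 3 2 (.rot (.rot (.cut 1 4 (.R 4 0 true) .P))) (.R 4 0 true))))))))) .P))))) .P))))) .P)))))))))) .P))) (.rot (.rot (.cut 11 1 .N (.rot (.cut 1 3 (.rot (.rot (.cut 1 3 (.cut 2 1 (.rot (.rot (.cut 1 1 .P (.rot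 (.cut 4 1 (.rot (.rot (.cut 1 2 .P (.rot (.cut 8 1 (.rot (.rot (.cut 1 4 (.cut 2 1 .P (.rot (.cut 2 1 (.R 4 0 true) .P))) (.rot (.cut 16 1 .N (.rot (.cut 1 2 (.rot (.rot (.cut 1 2 (.R 4 0 true) .P))) (.R 4 0 true)))))))) .P))))) .P))))) .P) .P))) (.cut 1 7 (.cut 2 1 (.rot (.rot (.cut 1 1 (.rot (.rot (.cut 1 5 .P (.rot (.cut 2 1 (.cut 4 1 (.R 4 0 true) (.cut 1 2 (.R 4 0 true) .P)) .P))))) .P))) (.R 4 0 true)) .N))))))))))) (.rot (.cut 1048576 1 (.rot (.rot (.cut 1 33554432 (.rot (.cut 1 5 (.rot (.cut 1 4 (.rot (.rot (.cut 3 2 .N (.rot (.cut 2 1 (.rot (.rot (.cut 1 3 .N (.rot (.cut 4 1 (.rot (.cut 1 1 .N (.R 0 0 true))) .N))))) .N))))) .N)) (.rot (.cut 1 1 (.cut 4 3 .N (.rot (.cut 2 1 (.cut 5 1 (.R 4 0 true) .N) .N))) (.rot (.rot (.cut 1 2 .N (.rot (.rot (.cut 8 1 (.R 4 0 true) (.rot (.cut 1 5 (.rot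 (.rot (.cut 1 3 (.rot (.rot (.cut 4 3 (.rot (.cut 1 3 (.rot (.cut 1 15 (.cut 2 1 (.rot (.rot (.cut 2 1 (.R 4 0 true) .N))) (.R 4 0 true)) (.R 4 0 true))) .N)) (.rot (.cut 2 1 (.cut 4 1 (.R 4 0 true) (.rot (.cut 3 2 .N (.R 4 0 true)))) (.rot (.cut 3 1 .N (.rot (.cut 2 3 (.rot (.rot (.cut 1 2 .N (.R 4 0 true)))) .N))))))))) .N))) (.R 4 0 true))))))))))))) (.rot (.cut 8388608 1 (.cut 16777216 1 .N (.rot (.cut 3 1 (.cut 4 1 (.rot (.rot (.cut 3 4 (.rot (.rot (.cut 1 5 (.cut 2 1 .P (.rot (.cut 1 2 (.rot (.rot (.cut 1 2 (.R 0 0 true) .N))) (.R 0 0 true)))) (.rot (.cut 5 1 .N (.cut 1 2 .N (.rot (.cut 2 1 (.R 0 0 true) .N)))))))) .P))) (.rot (.rot (.cut 5 1 .N (.rot (.cut 1 2 (.cut 2 1 (.rot (.rot (.cut 1 2 (.cut 2 1 .N (.R 0 0 true)) (.R 0 0 true)))) .N) .N)))))) .N))) (.rot (.cut 5 1 (.rot (.rot (.cut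 3 4 (.cut 5 1 (.cut 10 1 (.R 0 0 true) (.rot (.rot (.cut 5 1 .N (.rot (.cut 1 2 (.R 0 0 true) .N)))))) .N) .N))) (.rot (.cut 1 3 (.rot (.rot (.cut 2 3 (.cut 3 1 (.rot (.rot (.cut 4 3 .N (.R 0 0 true)))) .N) .N))) (.cut 1 4 (.rot (.rot (.cut 3 4 (.R 0 0 true) (.rot (.cut 2 1 .N (.cut 1 2 .N (.R 0 0 true))))))) (.R 0 0 true))))))))))) (.rot (.cut 3 1 .N (.rot (.cut 1 1 (.rot (.rot (.cut 1 3 (.R 4 0 true) (.cut 1 7 .P (.R 4 0 true))))) (.R 4 0 true)))))))))) (.rot (.cut 9 1 (.rot (.rot (.cut 1 22 (.cut 6 1 (.rot (.rot (.cut 1 3 (.cut 2 1 .P (.cut 1 2 .P (.R 4 0 true))) (.R 4 0 true)))) .P) .P))) (.cut 1 19 (.cut 4 1 (.rot (.rot (.cut 3 1 .N (.rot (.cut 10 1 (.rot (.rot (.cut 1 2 (.cut 2 1 (.R 4 0 true) .P) .P))) (.R 4 0 true)))))) (.rot (.cut 1 20 (.rot (.rot (.cut 1 3 (.cut 3 1 .N (.cut 1 2 (.R 4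 0 true) (.rot (.cut 1 3 (.cut 2 1 .P (.R 4 0 true)) (.R 4 0 true))))) (.rot (.cut 2 1 .P (.cut 1 2 (.cut 2 1 .P (.rot (.cut 2 3 (.rot (.rot (.cut 1 2 .P (.rot (.rot (.cut 1 1 (.rot (.rot (.cut 4 1 (.R 4 0 true) (.cut 1 2 (.R 4 0 true) .P)))) (.R 4 0 true))))))) .P))) (.rot (.cut 3 1 .N (.cut 1 2 (.R 4 0 true) (.rot (.cut 3 2 .P (.cut 1 4 (.rot (.cut 1 3 (.rot (.rot (.cut 2 1 .P (.R 4 0 true)))) .P)) (.R 4 0 true))))))))))))) .N))) (.rot (.cut 4 1 .P (.cut 1 3 (.cut 2 1 .P (.rot (.cut 3 1 (.rot (.rot (.cut 1 2 .P (.rot (.cut 6 1 (.rot (.rot (.cut 1 4 .P (.rot (.cut 12 1 (.rot (.rot (.cut 1 8 .P (.rot (.cut 24 1 (.rot (.rot (.cut 1 16 (.cut 2 1 .P (.R 4 0 true)) (.R 4 0 true)))) .P))))) .P))))) .P))))) .P))) (.rot (.cut 20 1 .N (.cut 1 2 (.cut 2 1 .N (.cut 1 2 (.rot (.cut 1 45 (.rot (.rot (.cut 2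 1 (.R 4 0 true) .P))) (.R 4 0 true))) (.rot (.cut 1 13 .P (.rot (.cut 45 1 (.rot (.rot (.cut 1 26 .P (.R 4 0 true)))) .P)))))) (.rot (.cut 1 3 .P (.cut 1 6 .P (.rot (.cut 13 1 (.rot (.rot (.cut 1 12 .P (.rot (.cut 26 1 (.rot (.rot (.cut 1 24 .P (.R 4 0 true)))) .P))))) .P))))))))))))))))))) (.rot (.cut 524288 1 (.rot (.rot (.cut 1 33554432 .P (.rot (.cut 2147483648 1 (.rot (.rot (.cut 1 4294967296 .P (.rot (.cut 17179869184 1 (.cut 17179869184 1 (.rot (.rot (.cut 1 4294967296 (.R 7 2 true) .N))) (.R 7 2 true)) .P))))) .P))))) (.cut 1 2048 .P (.rot (.cut 26 1 (.rot (.rot (.cut 1 32768 (.cut 4 1 .P (.rot (.cut 1 1024 (.R 7 2 true) .P))) (.rot (.cut 256 1 .P (.cut 1 3 (.cut 2 1 .P (.cut 1 2 (.cut 2 1 .P (.R 7 2 true)) (.R 7 2 true))) (.rot (.cut 1024 1 (.rot (.rot (.cut 1 9 (.R 7 2 true) .P))) (.R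 7 2 true))))))))) .P)))))))))

theorem c0 : Covered packed FP FN O (1, 0, 0) (0, 1, 0) (0, 0, 1) :=
  Tr.check_sound t0 (by decide +kernel)

end Pool.Agent.Rohlin.Octic.O13
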