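import Pool.Agent.Rohlin.Octic.O13.Ovals

/-!
# The octic O13: subdivision trees, part 1
-/

set_option autoImplicit false

namespace Pool.Agent.Rohlin.Octic.O13

open Pool.Agent.Rohlin.Cone

/-- tree -/
def t1 : Tr :=
  (.rot (.cut 1 524288 (.rot (.rot (.cut 4096 1 (.cut 524288 1 (.rot (.cut 13 1 .P (.rot (.cut 1 1048576 .P (.cut 1 16777216 .P .P))))) (.rot (.rot (.cut 1 13 (.rot (.rot (.cut 29 1 (.cut 512 1 .P .P) .P))) .P)))) (.rot (.cut 2048 1 (.rot (.rot (.cut 1 64 (.rot (.rot (.cut 1 128 (.cut 11 1 (.rot (.rot (.cut 28 1 (.rot (.rot (.cut 1 1024 (.cut 3 1 .P (.rot (.cut 1 21 (.rot (.rot (.cut 1 3 (.cut 3 1 (.rot (.rot (.cut 1 1 (.cut 2 1 (.rot (.rot (.cut 1 6 .P (.rot (.cut 4 1 (.rot (.rot (.cut 1 13 .P (.R 13 0 true)))) .P))))) .P) .P))) (.cut 1 2 (.rot (.rot (.cut 6 1 (.cut 13 1 (.rot (.rot (.cut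 1 12 .P (.R 13 0 true)))) .P) .P))) (.cut 1 5 (.rot (.rot (.cut 12 1 (.R 13 0 true) (.rot (.cut 2 1 .P (.R 13 0 true)))))) .N))) (.rot (.cut 2 1 (.rot (.rot (.cut 1 5 .N (.rot (.cut 4 1 (.rot (.rot (.cut 1 11 (.cut 2 1 (.rot (.rot (.cut 4 3 .P (.rot (.cut 4 1 (.R 13 0 true) .P))))) .P) .P))) (.cut 1 2 (.rot (.rot (.cut 3 4 (.R 13 0 true) .P))) (.R 13 0 true))))))) .N))))) (.cut 1 47 (.rot (.rot (.cut 1 1 .P (.rot (.cut 2 1 (.rot (.rot (.cut 1 2 .P (.rot (.cut 4 1 (.rot (.rot (.cut 1 4 .P (.rot (.cut 8 1 (.R 13 0 true) .P))))) .P))))) .P))))) .P)))) (.rot (.cut 128 1 .P (.cut 1 2 (.cut 2 1 .P (.cut 1 2 .P (.rot (.cut 5 1 (.rot (.rot (.cut 1 4 .P (.rot (.cut 10 1 (.rot (.rot (.cut 1 8 .P (.R 13 0 true)))) .P))))) .P)))) (.rot (.cut 21 1 (.rot (.rot (.cut 1 5 (.cut 2 1 .N (.cut 1 2 (.R 13 0 true) (.rot (.cut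 5 1 .P (.cut 1 2 .P (.R 13 0 true)))))) (.rot (.cut 47 1 .P (.cut 1 2 .P (.rot (.cut 1 5 (.rot (.rot (.cut 1 4 .P (.rot (.cut 2 1 (.rot (.rot (.cut 1 8 .P (.R 13 0 true)))) .P))))) .P)))))))) (.cut 1 2 .N (.cut 1 4 (.cut 2 1 (.R 13 0 true) (.rot (.cut 1 37 .P (.R 13 0 true)))) (.rot (.cut 1 5 .P (.cut 1 10 .P (.rot (.cut 37 1 (.R 13 0 true) .P))))))))))))))) .P))) (.rot (.rot (.cut 1024 1 (.rot (.rot (.cut 1 128 (.cut 2 1 (.rot (.rot (.cut 1 22 .P (.rot (.cut 4 1 (.cut 8 1 (.rot (.rot (.cut 1 44 (.cut 2 1 .P (.R 13 0 true)) (.R 13 0 true)))) .P) .P))))) .P) .P))) (.rot (.cut 1 3 (.rot (.rot (.cut 1 3 (.rot (.rot (.cut 4 3 (.cut 9 1 .P (.rot (.cut 1 3 (.rot (.rot (.cut 1 2 .P (.rot (.cut 2 1 (.rot (.rot (.cut 1 4 .P (.rot (.cut 4 1 (.R 13 0 true) .P))))) .P))))) .P))) (.rot (.cut 3 1 (.rot (.rot (.cut 1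 7 .N (.rot (.cut 5 1 (.rot (.rot (.cut 1 13 (.cut 2 1 (.R 13 0 true) (.rot (.cut 1 2 .P (.R 13 0 true)))) (.rot (.cut 11 1 .P (.cut 1 2 .P (.rot (.cut 2 1 (.rot (.rot (.cut 1 4 .P (.R 13 0 true)))) .P)))))))) .N))))) (.cut 1 3 (.cut 2 1 (.cut 5 1 .N (.rot (.cut 1 4 (.rot (.rot (.cut 1 2 (.R 13 0 true) (.rot (.cut 2 1 .P (.R 13 0 true)))))) .N))) (.rot (.cut 1 2 .P (.cut 1 4 .P (.rot (.cut 4 1 (.R 13 0 true) (.cut 1 2 (.R 13 0 true) .P))))))) (.rot (.cut 3 1 .P (.cut 1 2 .P (.rot (.cut 2 1 (.rot (.rot (.cut 1 4 .P (.rot (.cut 4 1 (.R 13 0 true) .P))))) .P))))))))))) .P))) (.rot (.rot (.cut 3 4 (.cut 7 1 (.rot (.rot (.cut 22 1 (.cut 44 1 .N (.rot (.cut 4 1 (.rot (.rot (.cut 1 2 (.R 13 0 true) .P))) (.R 13 0 true)))) (.rot (.cut 13 1 .P (.rot (.cut 1 4 (.rot (.rot (.cut 1 2 .P (.R 13 0 true)))) .P))))))) .N)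 (.rot (.cut 1 6 (.rot (.rot (.cut 1 9 (.cut 2 1 (.rot (.rot (.cut 5 1 (.cut 11 1 .P (.rot (.cut 2 1 (.R 13 0 true) .P))) (.rot (.cut 4 1 (.R 13 0 true) (.rot (.cut 1 2 .P (.R 13 0 true)))))))) .P) .P))) (.cut 1 13 (.rot (.rot (.cut 1 5 .N (.rot (.cut 2 1 (.rot (.rot (.cut 1 11 (.R 13 0 true) (.rot (.cut 4 1 (.cut 8 1 .P (.R 13 0 true)) (.R 13 0 true)))))) .N))))) .N)))))))))))) (.cut 1 512 (.rot (.rot (.cut 128 1 .P (.cut 1 2 .P (.rot (.cut 2 1 (.cut 4 1 (.rot (.rot (.cut 1 4 .P (.rot (.cut 8 1 (.rot (.rot (.cut 1 8 .P (.rot (.cut 16 1 (.R 13 0 true) (.cut 1 2 (.R 13 0 true) .P)))))) .P))))) .P) .P)))))) .P)))) (.rot (.cut 32768 1 (.rot (.cut 1 63 (.rot (.rot (.cut 131072 1 .P (.rot (.cut 3 1 (.rot (.rot (.cut 1 3 (.rot (.rot (.cut 3 4 (.cut 6 1 (.rot (.rot (.cut 3 4 (.rot (.rot (.cut 1 11 (.R 12 0 true)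 (.cut 1 24 (.R 12 0 true) .P)))) (.rot (.cut 12 1 (.cut 24 1 .P (.R 12 0 true)) (.R 12 0 true)))))) (.rot (.cut 1 6 .N (.rot (.cut 11 1 (.rot (.rot (.cut 1 12 .N (.rot (.cut 24 1 (.rot (.rot (.cut 1 24 (.R 12 0 true) .P))) (.R 12 0 true)))))) .N))))) (.rot (.cut 2 1 (.rot (.rot (.cut 1 9 .N (.rot (.cut 5 1 (.rot (.rot (.cut 1 21 (.cut 2 1 (.rot (.cut 1 9 (.rot (.rot (.cut 4 1 (.R 12 0 true) .P))) (.R 12 0 true))) (.rot (.cut 1 4 .P (.rot (.cut 9 1 (.rot (.rot (.cut 1 8 .P (.R 12 0 true)))) .P))))) (.rot (.cut 10 1 .P (.cut 1 2 .P (.rot (.cut 4 1 (.rot (.rot (.cut 1 4 .P (.rot (.cut 8 1 (.R 12 0 true) .P))))) .P)))))))) .N))))) (.cut 1 2 .N (.rot (.cut 6 1 (.rot (.rot (.cut 1 4 .N (.rot (.cut 12 1 (.rot (.rot (.cut 1 8 (.R 12 0 true) (.rot (.cut 24 1 .P (.R 12 0 true)))))) .N))))) .N)))))))) .P))) (.cut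 1 3 (.rot (.rot (.cut 4 3 (.rot (.cut 1 2 (.rot (.rot (.cut 9 1 (.rot (.rot (.cut 1 13 (.rot (.rot (.cut 3 4 (.rot (.rot (.cut 1 2 (.rot (.cut 3 2 .P (.rot (.cut 1 4 (.cut 2 1 (.R 12 0 true) .P) .P)))) (.R 12 0 true)))) (.cut 1 8 (.rot (.rot (.cut 4 1 .P (.cut 1 2 .P (.R 12 0 true))))) .P)))) (.rot (.cut 21 1 .P (.cut 1 2 .P (.rot (.cut 2 1 (.rot (.rot (.cut 1 4 .P (.R 12 0 true)))) .P)))))))) (.R 12 0 true)))) .P)) (.cut 1 6 (.rot (.rot (.cut 2 1 (.rot (.rot (.cut 1 5 (.R 12 0 true) (.cut 1 10 (.cut 2 1 (.rot (.cut 1 8 (.rot (.rot (.cut 4 1 (.R 12 0 true) .P))) (.R 12 0 true))) .P) .P)))) (.R 12 0 true)))) (.rot (.cut 2 1 (.cut 5 1 (.rot (.rot (.cut 1 12 (.R 12 0 true) (.cut 1 24 (.R 12 0 true) .P)))) (.R 12 0 true)) (.rot (.cut 5 1 (.rot (.rot (.cut 1 2 (.rot (.rot (.cut 1 5 (.rot (.rot (.cut 3 1 (.rot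 (.rot (.cut 1 5 (.rot (.rot (.cut 1 1 .P (.rot (.cut 2 1 (.R 12 0 true) .P))))) .P))) (.rot (.rot (.cut 1 1 (.R 12 0 true) (.rot (.cut 1 2 .P (.R 12 0 true))))))))) (.rot (.cut 2 1 (.cut 4 1 (.R 12 0 true) (.rot (.cut 3 1 .P (.R 12 0 true)))) (.rot (.cut 5 1 .P (.rot (.cut 1 3 (.rot (.rot (.cut 1 2 .P (.R 12 0 true)))) .P))))))))) (.rot (.cut 10 1 .P (.rot (.cut 1 3 (.rot (.rot (.cut 1 2 .P (.rot (.cut 2 1 (.rot (.rot (.cut 1 4 .P (.R 12 0 true)))) .P))))) .P))))))) .N)))))))) .P)))))) .P)) (.rot (.cut 1 28 .P (.rot (.cut 63 1 (.rot (.rot (.cut 1 128 (.rot (.rot (.cut 1 3 .P (.rot (.cut 2 1 (.cut 5 1 .P (.rot (.cut 1 1 (.rot (.cut 1 1 (.cut 2 1 (.rot (.rot (.cut 2 1 (.rot (.cut 2 1 (.rot (.rot (.cut 5 1 (.R 13 0 true) .P))) (.R 13 0 true))) .P))) (.R 13 0 true)) (.rot (.cut 1 2 (.cut 2 1 .P (.R 13 0 true))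 (.R 13 0 true))))) .P))) (.cut 1 2 (.rot (.rot (.cut 1 1 .P (.rot (.cut 2 1 (.rot (.rot (.cut 1 2 .P (.rot (.cut 4 1 (.rot (.rot (.cut 1 5 .P (.rot (.cut 8 1 (.R 13 0 true) .P))))) .P))))) .P))))) .P)))))) .P))) (.rot (.rot (.cut 3 1 .P (.rot (.cut 1 3 (.cut 3 1 .P (.rot (.rot (.cut 3 1 .P (.rot (.rot (.cut 5 1 (.rot (.rot (.cut 1 2 (.cut 2 1 .P (.rot (.rot (.cut 1 1 (.R 12 0 true) (.rot (.cut 1 2 .P (.cut 1 4 .P (.R 12 0 true)))))))) (.cut 1 5 (.R 12 0 true) .P)))) .P))))))) .P)))))))))))))) (.rot (.cut 1 29 .P (.rot (.cut 128 1 (.rot (.rot (.cut 1 512 (.rot (.rot (.cut 1 5 (.rot (.cut 2 3 (.rot (.rot (.cut 2 1 (.rot (.rot (.cut 1 5 .P (.rot (.cut 5 1 (.R 13 0 true) (.cut 1 2 (.rot (.cut 1 1 (.rot (.rot (.cut 2 1 (.R 13 0 true) .P))) (.R 13 0 true))) .P)))))) .P))) (.rot (.cut 1 1 .P (.rot (.cut 5 1 (.rot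 (.cut 1 7 (.rot (.rot (.cut 14 1 (.rot (.cut 4 3 (.R 13 0 true) (.rot (.cut 1 26 .P (.cut 1 62 (.rot (.cut 3 2 (.rot (.rot (.cut 2 1 .P (.cut 1 2 .P (.R 13 0 true))))) .P)) (.R 13 0 true)))))) (.rot (.rot (.cut 3 4 .P (.R 13 0 true))))))) (.rot (.cut 1 3 .P (.rot (.cut 26 1 (.rot (.rot (.cut 1 6 .P (.rot (.cut 62 1 (.rot (.rot (.cut 1 12 (.cut 2 1 (.rot (.rot (.cut 1 11 (.cut 2 1 (.R 13 0 true) .P) .P))) (.R 13 0 true)) .N))) (.cut 1 2 (.rot (.rot (.cut 11 1 .P (.rot (.cut 2 1 (.rot (.rot (.cut 1 2 .P (.R 13 0 true)))) .P))))) .P)))))) .P)))))) .P)))))) .P))) (.rot (.cut 512 1 .P (.rot (.cut 1 1 (.rot (.rot (.cut 1 2 .P (.rot (.cut 3 1 (.rot (.rot (.cut 1 4 .P (.cut 1 8 .P (.rot (.cut 6 1 (.rot (.rot (.cut 1 16 (.cut 2 1 .P (.rot (.cut 1 3 (.R 13 0 true) .P))) (.rot (.cut 12 1 .N (.cut 1 2 (.R 13 0 true)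 (.rot (.cut 3 1 .P (.R 13 0 true))))))))) .P)))))) .P))))) .P))))))) (.cut 1 11 (.rot (.rot (.cut 5 1 .P (.rot (.cut 3 1 (.rot (.rot (.cut 1 2 .P (.rot (.cut 6 1 (.rot (.rot (.cut 1 5 (.cut 2 1 .P (.cut 1 2 .P (.rot (.rot (.cut 2 1 (.rot (.rot (.cut 3 2 (.R 13 0 true) (.rot (.cut 5 1 (.rot (.rot (.cut 1 4 (.R 13 0 true) .P))) (.R 13 0 true)))))) (.R 13 0 true)))))) (.rot (.cut 13 1 .N (.rot (.cut 2 3 (.rot (.rot (.cut 1 2 .N (.rot (.cut 4 1 (.rot (.rot (.cut 1 4 (.R 13 0 true) (.cut 1 8 (.R 13 0 true) .P)))) (.R 13 0 true)))))) .N))))))) .P))))) .P))))) .P)))))))))) (.rot (.cut 2048 1 (.rot (.rot (.cut 1 2147483648 (.rot (.rot (.cut 65536 1 .P .P))) (.rot (.cut 4194304 1 (.rot (.rot (.cut 1 17179869184 .P (.rot (.cut 16777216 1 (.R 7 0 false) (.rot (.cut 2048 1 (.cut 2048 1 (.rot (.rot (.cut 1 2 (.rot (.rot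 (.cut 1 2048 .P (.rot (.cut 2 1 (.rot (.rot (.cut 1 4096 .P (.rot (.cut 4 1 (.rot (.rot (.cut 1 8192 .P (.rot (.cut 8 1 (.rot (.rot (.cut 1 16384 .P (.rot (.cut 16 1 (.cut 32 1 (.R 7 0 false) (.rot (.rot (.cut 1 512 .P (.rot (.cut 1 2 (.rot (.rot (.cut 1 1024 (.rot (.rot (.cut 512 1 (.cut 1024 1 (.cut 2048 1 (.rot (.cut 1 4 (.rot (.rot (.cut 4096 1 (.cut 8192 1 .N (.R 7 0 false)) (.R 7 0 false)))) .N)) (.R 7 0 false)) (.R 7 0 false)) (.R 7 0 false)))) .N))) (.cut 1 4 (.rot (.rot (.cut 1 512 .P (.rot (.cut 2 1 (.rot (.rot (.cut 1 1024 .P (.rot (.cut 4 1 (.rot (.rot (.cut 1 2048 .P (.rot (.cut 8 1 (.rot (.rot (.cut 1 4096 .P (.rot (.cut 16 1 (.rot (.rot (.cut 1 8192 (.rot (.rot (.cut 256 1 .N (.R 7 0 false)))) .N))) (.cut 1 2 (.rot (.rot (.cut 1 256 (.cut 2 1 (.rot (.rot (.cut 128 1 (.cut 256 1 (.cut 512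 1 (.cut 1024 1 .N (.R 7 0 false)) (.R 7 0 false)) (.R 7 0 false)) (.R 7 0 false)))) .N) .N))) (.cut 1 4 (.cut 2 1 (.rot (.rot (.cut 1 128 .P (.rot (.cut 4 1 (.rot (.rot (.cut 1 256 .P (.rot (.cut 8 1 (.rot (.rot (.cut 1 512 .P (.rot (.cut 16 1 (.rot (.rot (.cut 1 1024 (.cut 2 1 .P (.rot (.rot (.cut 128 1 (.rot (.rot (.cut 1 64 (.R 7 0 false) (.cut 1 128 (.R 7 0 false) .P)))) (.R 7 0 false))))) (.rot (.cut 32 1 .N (.cut 1 2 .N (.rot (.cut 64 1 (.rot (.rot (.cut 1 4 .N (.rot (.cut 128 1 (.rot (.rot (.cut 1 8 (.rot (.rot (.cut 1 32 .P (.rot (.cut 2 1 (.rot (.rot (.cut 1 64 (.cut 2 1 .P (.R 7 2 false)) (.R 7 2 false)))) .P))))) .P))) (.rot (.cut 1 16 (.R 7 0 false) (.rot (.cut 32 1 (.rot (.rot (.cut 1 32 (.R 7 0 false) (.rot (.cut 64 1 .N (.rot (.cut 1 1 (.rot (.rot (.cut 1 2 (.rot (.rot (.cut 1 1 (.rot (.rot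 (.cut 1 2 (.cut 2 1 (.R 7 2 false) .N) .N))) (.R 7 2 false)))) (.rot (.cut 2 1 .P (.rot (.cut 2 1 (.R 7 0 false) (.rot (.cut 1 1 (.rot (.rot (.cut 1 2 (.rot (.rot (.cut 1 1 (.rot (.rot (.cut 1 2 (.rot (.cut 1 2 (.R 7 2 false) .N)) (.rot (.cut 2 1 .P (.rot (.cut 2 1 (.rot (.rot (.cut 1 2 (.rot (.rot (.cut 1 2 (.cut 2 1 .N (.R 7 0 false)) (.R 7 0 false)))) .N))) (.rot (.cut 1 1 (.R 7 2 false) (.rot (.cut 2 1 .P (.rot (.cut 1 1 (.cut 2 1 (.rot (.rot (.cut 1 2 (.rot (.rot (.cut 1 2 (.rot (.rot (.cut 1 1 (.R 7 0 false) .P))) (.R 7 0 false)))) (.cut 1 4 (.rot (.rot (.cut 1 1 (.R 7 2 false) (.R 7 0 false)))) (.R 7 2 false))))) .P) .P))))))))))))) .N))) (.rot (.rot (.cut 2 1 .P (.R 7 2 false))))))) (.R 7 0 false)))))))))) .N))))))) (.R 7 0 false)))))))))) .N)))))))) .P))))) .P))))) .P))))) .P) .P))))))) .P)))))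 .P))))) .P))))) .P))))))) .P))))) .P))))) .P))))) .P))))) .P))) (.R 7 0 false)) (.R 7 0 false)))))))) .P))))) (.rot (.rot (.cut 1 65536 (.rot (.rot (.cut 1048576 1 (.rot (.rot (.cut 1 67108864 (.rot (.rot (.cut 13 1 .P (.rot (.cut 13 1 (.rot (.rot (.cut 1 6 (.cut 3 1 .P (.rot (.rot (.cut 3 1 (.rot (.rot (.cut 2 1 (.rot (.rot (.cut 1 9 (.cut 2 1 (.rot (.rot (.cut 2 1 (.cut 4 1 (.R 16 0 true) .P) .P))) (.R 16 0 true)) .N))) (.cut 1 2 (.rot (.rot (.cut 1 2 .P (.rot (.cut 2 1 (.rot (.rot (.cut 1 4 .P (.rot (.cut 4 1 (.R 16 0 true) .P))))) .P))))) .P)))) (.rot (.cut 1 2 (.rot (.rot (.cut 1 3 (.rot (.cut 1 4 .P (.rot (.cut 2 1 (.R 16 0 true) (.rot (.cut 4 1 (.rot (.rot (.cut 1 2 (.cut 2 1 (.R 16 0 true) .P) .P))) (.R 16 0 true))))))) .P))) (.rot (.cut 9 1 (.R 16 0 true) (.rot (.cut 1 2 (.rot (.rot (.cut 1 2 (.R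 16 0 true) (.rot (.cut 2 1 .P (.cut 1 2 (.rot (.cut 1 2 .P .P)) (.R 16 0 true))))))) (.R 16 0 true))))))))))) (.cut 1 49 (.rot (.cut 4 3 (.rot (.rot (.cut 3 1 (.cut 7 1 (.rot (.rot (.cut 1 20 (.cut 2 1 .P (.rot (.rot (.cut 5 1 (.R 16 0 true) (.rot (.cut 1 2 .P (.R 16 0 true))))))) (.R 16 0 true)))) .P) .P))) (.rot (.cut 1 2 (.rot (.cut 6 1 (.rot (.rot (.cut 2 1 .P (.cut 1 2 .P (.rot (.rot (.cut 1 4 (.R 16 0 true) (.rot (.cut 1 4 .P (.R 16 0 true)))))))))) .P)) (.rot (.rot (.cut 1 6 (.rot (.rot (.cut 20 1 (.R 16 0 true) (.cut 1 2 (.cut 2 1 (.R 16 0 true) .P) .P)))) (.R 16 0 true)))))))) .P)))) .P))))) (.rot (.cut 16777216 1 (.rot (.cut 24 1 (.rot (.cut 1 4294967296 (.cut 3 1 (.rot (.rot (.cut 64 1 (.rot (.rot (.cut 1 512 (.rot (.cut 1 7 (.rot (.cut 1 5 (.rot (.rot (.cut 2 1 (.R 14 0 true) (.rot (.cut 2 1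 .P (.R 14 0 true)))))) (.R 14 0 true))) (.rot (.cut 3 1 .P (.rot (.cut 5 1 (.rot (.rot (.cut 1 2 (.rot (.rot (.cut 1 5 (.R 14 0 true) (.rot (.cut 2 1 .P (.R 14 0 true)))))) .N))) (.rot (.rot (.cut 5 1 .P (.rot (.cut 1 2 (.R 14 0 true) .P))))))))))) .P))) (.rot (.cut 6 1 .P (.cut 1 2 .P (.rot (.cut 1 3 (.rot (.rot (.cut 1 4 (.cut 2 1 .P (.rot (.cut 1 4 (.R 14 0 true) .P))) (.rot (.cut 2 1 .N (.rot (.cut 4 1 (.rot (.rot (.cut 1 2 (.R 14 0 true) .P))) (.R 14 0 true)))))))) .P)))))))) (.cut 1 3 (.rot (.rot (.cut 512 1 (.rot (.rot (.cut 1 1024 (.rot (.rot (.cut 1 2 (.rot (.cut 2 3 (.rot (.cut 1 12 (.rot (.rot (.cut 4 1 (.R 14 0 true) .P))) (.R 14 0 true))) .P)) .P))) .P))) (.rot (.cut 2 1 (.R 14 0 true) (.rot (.cut 2 1 (.rot (.rot (.cut 1 2 (.rot (.cut 1 1 (.rot (.rot (.cut 2 1 (.R 14 0 true) .P))) (.R 14 0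 true))) .P))) (.R 14 0 true)))))))) .P)) .P)) (.rot (.cut 1 1073741824 (.cut 3 1 (.rot (.rot (.cut 1 3 .P (.rot (.cut 8 1 (.rot (.rot (.cut 1 8 (.cut 2 1 (.rot (.rot (.cut 2 3 .N (.rot (.cut 4 1 (.rot (.rot (.cut 1 7 (.rot (.rot (.cut 1 1 .P (.rot (.rot (.cut 1 1 (.rot (.rot (.cut 2 1 (.R 15 0 true) (.cut 1 2 (.R 15 0 true) .P)))) (.R 15 0 true))))))) .P))) (.rot (.rot (.cut 1 1 (.R 15 0 true) (.rot (.cut 1 2 .P (.R 15 0 true))))))))))) .N) (.rot (.cut 21 1 (.rot (.rot (.cut 1 19 (.R 15 0 true) (.rot (.cut 42 1 .P (.R 15 0 true)))))) .N))))) (.cut 1 2 (.rot (.cut 1 4 (.rot (.rot (.cut 2 1 (.rot (.rot (.cut 1 4 (.rot (.rot (.cut 4 3 .N (.rot (.cut 2 1 (.rot (.rot (.cut 1 7 (.R 15 0 true) .P))) (.R 15 0 true)))))) .N))) (.cut 1 2 (.rot (.rot (.cut 3 4 (.cut 7 1 .P (.R 15 0 true)) (.R 15 0 true)))) .P))))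 (.rot (.rot (.cut 4 1 (.rot (.rot (.cut 3 2 (.rot (.rot (.cut 1 16 (.R 15 0 true) (.rot (.cut 7 1 .P (.cut 1 2 (.rot (.cut 1 1 (.rot (.rot (.cut 2 1 .P (.R 15 0 true)))) .P)) (.R 15 0 true))))))) .N))) (.rot (.rot (.cut 16 1 .P (.rot (.cut 1 2 (.R 15 0 true) .P)))))))))) .P)))))) .P) (.rot (.cut 4294967296 1 .P (.cut 1 3 (.cut 3 1 .P (.rot (.cut 1 44 (.rot (.cut 1 3 (.rot (.rot (.cut 4 1 (.R 14 0 true) .P))) (.rot (.cut 1 2 (.cut 2 1 .P (.rot (.rot (.cut 2 3 (.R 14 0 true) (.rot (.cut 1 2 .P (.R 14 0 true))))))) (.R 14 0 true))))) .P))) (.cut 1 6 (.rot (.rot (.cut 44 1 .P (.rot (.cut 2 1 (.rot (.rot (.cut 1 4 (.rot (.rot (.cut 1 2 (.cut 3 1 (.rot (.rot (.cut 1 3 (.R 14 0 true) (.cut 1 5 (.R 14 0 true) .P)))) .P) .P))) (.rot (.cut 4 1 (.R 14 0 true) (.rot (.cut 3 1 (.rot (.rot (.cut 1 2 (.R 14 0 true) (.rot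 (.cut 5 1 .P (.R 14 0 true)))))) (.R 14 0 true)))))))) .P))))) .P)))))))) (.cut 1 4 (.rot (.rot (.cut 1 24 (.rot (.rot (.cut 7 1 .P (.rot (.cut 3 1 (.rot (.rot (.cut 1 3 .P (.cut 1 9 .P (.rot (.rot (.cut 2 1 (.rot (.rot (.cut 8 1 (.cut 19 1 .P (.R 15 0 true)) (.cut 1 2 (.R 15 0 true) (.cut 1 4 (.cut 2 1 (.R 15 0 true) .P) .P))))) .P))))))) .P))))) (.cut 1 64 .P .P)))) .P)))))) (.rot (.rot (.cut 1 13 (.rot (.cut 1 256 (.rot (.cut 1 8 .P (.rot (.rot (.cut 4 1 (.rot (.cut 1 61 .P (.rot (.cut 6 1 (.cut 49 1 .P (.cut 1 3 .P (.rot (.cut 9 1 (.rot (.rot (.cut 1 7 .P (.rot (.cut 18 1 (.R 16 0 true) (.rot (.cut 2 3 .P (.cut 1 5 .P (.R 16 0 true))))))))) .P)))) (.cut 1 3 (.rot (.rot (.cut 1 9 .P (.rot (.rot (.cut 9 1 (.rot (.rot (.cut 2 1 (.rot (.rot (.cut 1 41 (.cut 2 1 .P (.R 16 0 true)) (.R 16 0 true)))) .P)))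 (.rot (.cut 1 18 .P (.rot (.cut 41 1 (.R 16 0 true) (.cut 1 2 (.R 16 0 true) .P))))))))))) .P))))) .P))))) .P)) .P)))))) (.rot (.rot (.cut 67108864 1 (.rot (.rot (.cut 1 1024 .P (.rot (.cut 1073741824 1 (.rot (.cut 1 524288 .P (.rot (.cut 1 8192 (.cut 1 1 (.rot (.cut 2097152 1 .P (.rot (.cut 1 1048576 (.rot (.rot (.cut 1 2 .P (.rot (.rot (.cut 5 1 (.rot (.cut 1 12 .P (.R 15 0 true))) .P)))))) .P)))) .P) .P)))) (.rot (.rot (.cut 524288 1 (.rot (.rot (.cut 1 524288 (.rot (.rot (.cut 1 8 (.rot (.cut 1 5 (.R 15 0 true) (.rot (.cut 2 1 (.cut 4 1 .P (.cut 1 2 .P (.R 15 0 true))) (.R 15 0 true))))) (.rot (.rot (.cut 5 1 .P (.rot (.cut 1 26 (.R 15 0 true) (.cut 1 52 (.R 15 0 true) .P))))))))) (.rot (.cut 1048576 1 .P (.rot (.cut 1 2 (.R 15 0 true) (.rot (.rot (.cut 2 1 .P (.rot (.cut 1 4 (.cut 2 1 (.R 15 0 true)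 .P) .P)))))))))))) (.rot (.cut 1 3 .P (.cut 1 8 (.rot (.rot (.cut 4 3 (.cut 12 1 (.R 15 0 true) (.rot (.cut 1 4 (.cut 2 1 .P (.R 15 0 true)) (.R 15 0 true)))) (.rot (.cut 2 1 .P (.rot (.cut 4 1 (.rot (.rot (.cut 1 2 (.rot (.rot (.cut 1 4 (.R 15 0 true) (.rot (.cut 2 1 .P (.R 15 0 true)))))) .N))) (.cut 1 2 (.rot (.rot (.cut 4 1 .P (.R 15 0 true)))) .P)))))))) (.rot (.cut 8 1 (.rot (.rot (.cut 1 21 .N (.rot (.cut 26 1 (.rot (.rot (.cut 1 42 (.R 15 0 true) (.rot (.cut 52 1 .P (.R 15 0 true)))))) .N))))) (.R 15 0 true)))))))))))))) (.cut 1 13 .P .P)))))))))))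

theorem c1 : Covered packed FP FN O (0, 1, 0) (0, 1, 5) (-1, 0, 0) :=
  Tr.check_sound t1 (by decide +kernel)

end Pool.Agent.Rohlin.Octic.O13
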