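import Pool.Agent.Rohlin.Octic.O13.Ovals

/-!
# The octic O13: subdivision trees, part 2
-/

set_option autoImplicit false

namespace Pool.Agent.Rohlin.Octic.O13

open Pool.Agent.Rohlin.Cone

/-- tree -/
def t2 : Tr :=
  (.rot (.cut 1 2048 (.rot (.rot (.cut 1 16384 (.rot (.cut 1 9 (.cut 19 1 .P (.rot (.rot (.cut 2048 1 (.rot (.rot (.cut 1 512 .P (.cut 1 4096 (.rot (.rot (.cut 1 4 .P (.rot (.cut 4 1 .P (.rot (.cut 2 1 (.rot (.rot (.cut 1 2 (.cut 2 1 .P (.rot (.rot (.cut 4 3 (.rot (.rot (.cut 4 3 (.R 12 0 true) .P))) (.rot (.cut 1 2 .P (.R 12 0 true))))))) (.rot (.cut 5 1 (.rot (.rot (.cut 1 5 (.rot (.rot (.cut 1 3 (.rot (.rot (.cut 1 1 .N (.rot (.cut 2 1 (.cut 4 1 (.rot (.rot (.cut 1 2 (.R 12 0 true) .P))) (.R 12 0 true)) .N))))) .N))) (.rot (.cut 11 1 (.rot (.rot (.cut 1 10 (.rot (.rot (.cut 1 2 (.rot (.rot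 (.cut 1 1 (.R 12 0 true) (.rot (.cut 2 1 .P (.R 12 0 true)))))) .N))) (.cut 1 20 (.rot (.rot (.cut 1 1 .P (.rot (.cut 2 1 (.R 12 0 true) .P))))) .P)))) (.rot (.cut 1 1 (.rot (.cut 1 1 (.rot (.rot (.cut 2 1 .P (.R 12 0 true)))) .P)) (.rot (.cut 2 1 .N (.rot (.cut 1 1 (.rot (.rot (.cut 1 2 (.R 12 0 true) .P))) (.R 12 0 true)))))))))))) (.rot (.cut 3 4 .P (.rot (.cut 3 1 (.R 12 0 true) (.rot (.cut 3 1 (.rot (.rot (.cut 1 2 (.R 12 0 true) (.cut 1 4 (.R 12 0 true) .P)))) (.R 12 0 true)))))))))))) .P))))))) .P)))) .P)))) (.rot (.cut 1 26 .P (.rot (.cut 512 1 (.rot (.rot (.cut 1 256 .P (.rot (.cut 4096 1 (.rot (.rot (.cut 1 1024 (.cut 3 1 (.rot (.rot (.cut 1 20 (.cut 2 1 (.cut 5 1 .P (.rot (.cut 1 11 (.R 12 0 true) (.cut 1 22 (.R 12 0 true) .P)))) (.rot (.cut 1 6 .N (.rot (.cut 11 1 (.rot (.rot (.cut 1 12 .N (.rot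 (.cut 22 1 (.rot (.rot (.cut 1 24 (.R 12 0 true) .P))) (.R 12 0 true)))))) .N))))) (.rot (.cut 7 1 (.R 12 0 true) (.cut 1 2 .N (.rot (.cut 6 1 (.rot (.rot (.cut 1 4 .N (.rot (.cut 12 1 (.rot (.rot (.cut 1 8 (.R 12 0 true) (.rot (.cut 24 1 .P (.R 12 0 true)))))) .N))))) .N)))))))) .P) .P))) (.cut 1 4 (.cut 2 1 (.rot (.rot (.cut 20 1 (.R 12 0 true) (.rot (.cut 5 1 (.rot (.rot (.cut 1 2 .N (.rot (.cut 10 1 (.rot (.rot (.cut 1 5 (.R 12 0 true) (.rot (.cut 20 1 .P (.cut 1 2 .P (.R 12 0 true))))))) .N))))) .N))))) (.rot (.cut 1 35 (.rot (.rot (.cut 1 2 (.cut 2 1 (.rot (.rot (.cut 1 1 (.cut 2 1 .P (.cut 1 2 .P (.R 12 0 true))) (.R 12 0 true)))) .P) .P))) (.rot (.rot (.cut 1 1 (.R 12 0 true) (.rot (.rot (.cut 256 1 (.rot (.cut 1 5 (.R 12 0 true) .P)) (.rot (.rot (.cut 5 1 (.rot (.rot (.cut 1 2 (.cut 2 1 (.R 12 0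 true) .P) .P))) (.R 12 0 true))))))))))))) .P)))))) .P)))))) (.rot (.cut 16384 1 (.rot (.rot (.cut 1 2097152 (.rot (.cut 1 3 (.rot (.cut 1 12 .N (.rot (.cut 5 1 (.rot (.rot (.cut 1 32 (.rot (.rot (.cut 3 1 .P (.rot (.cut 2 1 (.rot (.rot (.cut 1 2 .P (.rot (.cut 4 1 (.rot (.rot (.cut 1 5 (.cut 2 1 .P (.rot (.cut 1 1 (.R 4 0 true) .P))) (.rot (.cut 8 1 .N (.rot (.cut 1 1 (.rot (.rot (.cut 1 2 (.R 4 0 true) .P))) (.R 4 0 true)))))))) .P))))) .P))))) .P))) (.cut 1 3 (.rot (.cut 1 1 .P (.rot (.cut 1 3 (.cut 2 1 (.cut 5 1 (.R 4 0 true) (.rot (.cut 1 2 (.rot (.rot (.cut 1 2 (.R 4 0 true) .P))) (.R 4 0 true)))) .P) .P)))) (.R 4 0 true)))))) (.rot (.rot (.cut 12 1 (.rot (.cut 1 11 (.rot (.cut 1 64 (.cut 2 1 .N (.cut 1 2 .N (.rot (.rot (.cut 12 1 (.rot (.rot (.cut 1 2 (.rot (.rot (.cut 1 7 (.rot (.rot (.cut 4 1 (.rot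 (.rot (.cut 1 9 (.R 4 0 true) (.rot (.cut 9 1 (.cut 18 1 .P (.R 4 0 true)) (.R 4 0 true)))))) .N))) (.rot (.rot (.cut 9 1 .P (.rot (.cut 1 14 (.cut 2 1 (.R 4 0 true) .P) .P)))))))) (.cut 1 4 (.rot (.rot (.cut 1 4 .N (.rot (.cut 2 1 (.rot (.rot (.cut 1 9 (.R 4 0 true) (.cut 1 18 (.R 4 0 true) .P)))) (.R 4 0 true)))))) .N)))) (.rot (.cut 1 4 .N (.rot (.cut 7 1 (.rot (.cut 1 2 (.rot (.rot (.cut 14 1 (.rot (.rot (.cut 1 29 (.rot (.rot (.cut 1 1 .P (.rot (.cut 2 1 (.R 4 0 true) .P))))) .P))) (.rot (.rot (.cut 1 1 (.R 4 0 true) (.rot (.cut 1 2 .P (.R 4 0 true))))))))) (.rot (.cut 1 8 (.cut 2 1 (.R 4 0 true) (.rot (.cut 2 1 .P (.R 4 0 true)))) (.rot (.cut 29 1 .P (.rot (.cut 1 2 (.rot (.rot (.cut 1 2 .P (.R 4 0 true)))) .P)))))))) .N))))))))) (.rot (.cut 32 1 .P (.cut 1 2 .P (.rot (.cut 2 1 (.rot (.rot (.cut 1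 4 .P (.rot (.rot (.cut 3 2 (.rot (.rot (.cut 4 1 (.rot (.rot (.cut 1 36 (.rot (.rot (.cut 3 1 (.R 4 0 true) (.rot (.cut 2 1 .P (.R 4 0 true)))))) .N))) (.cut 1 2 (.rot (.rot (.cut 1 3 .P (.R 4 0 true)))) .P)))) (.rot (.cut 1 8 (.rot (.cut 2 1 (.rot (.rot (.cut 2 1 .P (.R 4 0 true)))) .P)) (.rot (.cut 36 1 .N (.rot (.cut 1 2 (.rot (.rot (.cut 1 2 (.R 4 0 true) .P))) (.R 4 0 true))))))))))))) .P))))))) (.rot (.cut 1 4 (.cut 3 1 (.rot (.rot (.cut 1 52 .N (.rot (.cut 5 1 (.rot (.rot (.cut 1 128 (.R 4 0 true) (.cut 1 256 (.R 4 0 true) .P)))) (.R 4 0 true)))))) (.R 4 0 true)) (.rot (.cut 64 1 .P (.cut 1 2 (.cut 2 1 (.rot (.rot (.cut 18 1 (.cut 35 1 (.R 4 0 true) (.rot (.cut 2 1 (.rot (.cut 1 2 (.rot (.rot (.cut 4 1 (.rot (.rot (.cut 1 8 (.R 4 0 true) (.rot (.cut 9 1 .P (.R 4 0 true)))))) .N))) (.cut 1 4 (.rot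 (.rot (.cut 8 1 .P (.R 4 0 true)))) .P))) (.R 4 0 true)))) (.cut 1 2 (.rot (.cut 1 1 (.rot (.cut 1 5 (.rot (.rot (.cut 2 1 .P (.R 4 0 true)))) .P)) (.rot (.cut 1 2 .N (.rot (.cut 5 1 (.rot (.rot (.cut 1 4 (.R 4 0 true) (.cut 1 9 (.R 4 0 true) .P)))) (.R 4 0 true))))))) (.rot (.cut 4 1 (.cut 8 1 .P (.rot (.cut 1 2 (.rot (.rot (.cut 1 2 .P (.rot (.cut 2 1 (.R 4 0 true) .P))))) .P))) (.rot (.cut 1 1 .N (.cut 1 2 (.R 4 0 true) (.rot (.cut 2 1 .P (.cut 1 2 .P (.R 4 0 true))))))))))))) (.R 4 0 true)) (.R 4 0 true)))))))) (.rot (.rot (.cut 11 1 (.rot (.rot (.cut 1 41 .N (.rot (.cut 52 1 (.rot (.rot (.cut 1 128 .N (.rot (.cut 128 1 (.cut 256 1 (.rot (.rot (.cut 1 256 (.R 4 0 true) .P))) (.R 4 0 true)) .N))))) .N))))) .N)))))))) (.rot (.cut 1048576 1 (.rot (.cut 1 1 (.cut 4 3 (.rot (.rot (.cut 8388608 1 (.rot (.rot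 (.cut 1 134217728 (.rot (.rot (.cut 8 1 (.rot (.rot (.cut 1 10 .N (.rot (.cut 14 1 (.rot (.cut 1 1 (.rot (.rot (.cut 25 1 (.R 3 0 true) (.cut 1 2 (.rot (.cut 1 2 (.rot (.rot (.cut 2 1 (.R 3 0 true) .N))) (.R 3 0 true))) .N)))) (.R 3 0 true))) .N))))) .N))) (.rot (.cut 16777216 1 .N (.rot (.cut 10 1 (.rot (.rot (.cut 3 4 (.cut 5 1 .N (.rot (.rot (.cut 1 1 (.R 3 0 true) (.rot (.cut 1 2 .N (.R 3 0 true))))))) (.R 3 0 true)))) .N))))))) (.cut 3 4 (.rot (.rot (.cut 1 8 .N (.rot (.cut 5 1 (.rot (.rot (.cut 1 14 .N (.rot (.cut 10 1 (.rot (.rot (.cut 1 25 (.rot (.rot (.cut 1 1 (.cut 2 1 (.R 3 0 true) (.rot (.cut 1 1 .N (.R 3 0 true)))) (.rot (.cut 2 1 .N (.rot (.cut 1 1 (.rot (.rot (.cut 1 2 .N (.R 3 0 true)))) .N))))))) .P))) (.rot (.rot (.cut 1 1 .N (.rot (.cut 1 2 (.rot (.rot (.cut 1 2 .N (.R 3 0 true)))) .N))))))))))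 .N))))) .N)))) .N) .N)) (.rot (.cut 3 1 (.rot (.rot (.cut 1 18 .N (.rot (.cut 41 1 (.rot (.rot (.cut 1 48 .N (.rot (.cut 128 1 (.rot (.rot (.cut 1 128 (.R 4 0 true) (.rot (.cut 256 1 .P (.R 4 0 true)))))) .N))))) .N))))) .N))))))) (.rot (.cut 9 1 .P (.cut 1 19 .P (.rot (.cut 4 1 (.rot (.rot (.cut 1 64 (.cut 2 1 (.cut 4 1 (.R 4 0 true) .P) .P) .P))) (.cut 1 3 (.R 4 0 true) (.cut 1 5 (.R 4 0 true) .P)))))))))))) (.rot (.cut 524288 1 (.rot (.rot (.cut 1 33554432 .P (.rot (.cut 2147483648 1 (.R 7 0 false) .P))))) (.cut 1 2048 .P (.rot (.cut 26 1 (.rot (.rot (.cut 1 32768 .P (.rot (.cut 256 1 (.rot (.rot (.cut 1 131072 (.cut 3 1 .P (.cut 1 2 (.cut 2 1 (.cut 4 1 (.cut 8 1 .P (.R 12 0 true)) (.R 12 0 true)) (.R 12 0 true)) (.rot (.cut 1 512 (.rot (.rot (.cut 1 5 .N (.rot (.cut 2 1 (.cut 4 1 (.rot (.rot (.cut 1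 10 (.cut 2 1 (.rot (.rot (.cut 1 1 .P (.rot (.cut 4 1 (.R 12 0 true) .P))))) .P) .P))) (.cut 1 2 (.rot (.rot (.cut 1 1 (.R 12 0 true) .P))) (.R 12 0 true))) .N))))) (.R 12 0 true))))) (.rot (.cut 1024 1 .P (.cut 1 3 .P (.rot (.cut 512 1 (.rot (.rot (.cut 1 7 (.cut 2 1 (.rot (.rot (.cut 1 128 .N (.rot (.cut 4 1 (.rot (.rot (.cut 1 256 .N (.rot (.cut 8 1 (.rot (.rot (.cut 1 512 (.R 12 0 true) .P))) (.R 12 0 true)))))) .N))))) .N) (.R 12 0 true)))) (.cut 1 2 (.rot (.rot (.cut 128 1 (.cut 256 1 (.cut 512 1 (.rot (.rot (.cut 1 256 (.R 12 0 true) .P))) (.R 12 0 true)) .N) .N))) (.cut 1 4 (.cut 2 1 (.rot (.rot (.cut 256 1 .P (.R 12 0 true)))) .P) .P)))))))))) .P))))) .P)))))))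

theorem c2 : Covered packed FP FN O (0, 1, 5) (0, 0, 1) (-1, 0, 0) :=
  Tr.check_sound t2 (by decide +kernel)

end Pool.Agent.Rohlin.Octic.O13
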