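import Pool.Agent.Rohlin.Octic.O13.Ovals

/-!
# The octic O13: subdivision trees, part 3
-/

set_option autoImplicit false

namespace Pool.Agent.Rohlin.Octic.O13

open Pool.Agent.Rohlin.Cone

/-- tree -/
def t3 : Tr :=
  (.rot (.cut 1 5 (.rot (.cut 1 524288 (.rot (.rot (.cut 4096 1 (.cut 524288 1 (.rot (.cut 13 1 (.cut 512 1 (.rot (.cut 1 1073741824 (.rot (.rot (.cut 4096 1 .P (.rot (.cut 4 3 (.rot (.cut 1 3 (.rot (.rot (.cut 9 1 (.rot (.rot (.cut 1 17 (.rot (.rot (.cut 1 1 (.rot (.rot (.cut 1 2 (.cut 2 1 .P (.R 18 0 true)) (.R 18 0 true)))) .P))) (.rot (.cut 22 1 (.cut 44 1 .P (.rot (.rot (.cut 2 1 (.rot (.rot (.cut 3 4 (.R 18 0 true) .P))) (.R 18 0 true))))) (.rot (.cut 2 1 .N (.rot (.cut 4 3 (.rot (.rot (.cut 1 2 (.R 18 0 true) .P))) (.R 18 0 true)))))))))) (.rot (.cut 2 1 (.rot (.rot (.cut 1 2 (.rot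 (.cut 1 1 (.R 18 0 true) (.rot (.cut 2 3 (.cut 4 1 .P (.R 18 0 true)) (.R 18 0 true))))) (.rot (.cut 5 1 .P (.rot (.cut 1 1 .P (.rot (.rot (.cut 1 1 .P (.R 18 0 true))))))))))) (.rot (.cut 1 1 .P (.rot (.cut 3 2 (.R 18 0 true) (.cut 1 4 (.R 18 0 true) .P)))))))))) .P)) .P))))) .P)) (.rot (.rot (.cut 1073741824 1 .P (.rot (.rot (.cut 32 1 .P (.rot (.cut 3 4 .P (.rot (.cut 5 1 (.rot (.cut 1 1 (.rot (.rot (.cut 12 1 (.rot (.rot (.cut 1 25 (.rot (.rot (.cut 1 1 (.rot (.rot (.cut 1 2 (.R 18 0 true) .P))) (.rot (.cut 2 1 (.rot (.rot (.cut 1 2 (.R 18 0 true) (.rot (.cut 4 1 (.cut 8 1 .P (.R 18 0 true)) (.R 18 0 true)))))) (.R 18 0 true)))))) (.rot (.rot (.cut 2 1 .P (.rot (.rot (.cut 128 1 (.rot (.rot (.cut 1 56 (.R 18 0 true) (.cut 1 128 (.cut 2 1 (.R 18 0 true) .P) .P)))) (.R 18 0 true)))))))))) .P))) (.rot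 (.cut 1 9 (.rot (.rot (.cut 1 3 (.rot (.rot (.cut 4 3 (.R 18 0 true) (.rot (.cut 2 1 (.rot (.rot (.cut 1 6 (.R 18 0 true) (.cut 1 13 (.R 18 0 true) .P)))) (.R 18 0 true)))))) (.rot (.cut 2 1 (.rot (.rot (.cut 1 7 (.rot (.cut 1 3 .P (.R 18 0 true))) .P))) (.R 18 0 true)))))) (.rot (.cut 25 1 (.rot (.rot (.cut 1 22 .N (.rot (.cut 56 1 (.rot (.rot (.cut 1 44 (.R 18 0 true) (.rot (.cut 128 1 .P (.cut 1 2 .P (.R 18 0 true))))))) .N))))) (.rot (.cut 3 4 (.rot (.rot (.cut 1 2 .N (.rot (.cut 6 1 (.rot (.rot (.cut 1 4 .N (.rot (.cut 13 1 (.rot (.rot (.cut 1 8 (.R 18 0 true) .P))) (.R 18 0 true)))))) .N))))) .N)))))))) (.rot (.rot (.cut 1 1 .P .P)))))))))))))) (.rot (.cut 1 1048576 (.rot (.rot (.cut 1 45 (.cut 7 1 .P .P) (.rot (.cut 16 1 (.rot (.rot (.cut 1 256 .P .P))) .P))))) (.cut 1 16777216 .P .P))))) (.rot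 (.rot (.cut 1 13 (.rot (.rot (.cut 29 1 (.rot (.cut 7 1 .P .P)) (.rot (.cut 45 1 (.rot (.rot (.cut 1 5 (.rot (.cut 13 1 (.rot (.rot (.cut 3 1 (.cut 6 1 .P (.cut 1 2 (.rot (.rot (.cut 1 5 (.R 19 0 true) (.rot (.cut 2 1 .P (.R 19 0 true)))))) (.R 19 0 true))) (.rot (.cut 35 1 (.rot (.rot (.cut 1 3 .N (.rot (.cut 64 1 (.rot (.rot (.cut 1 5 (.cut 2 1 (.rot (.rot (.cut 1 24 .P (.rot (.cut 4 1 (.R 19 0 true) .P))))) .P) .P))) (.cut 1 2 (.cut 2 1 (.rot (.rot (.cut 24 1 (.R 19 0 true) .P))) (.R 19 0 true)) .N)))))) (.R 19 0 true)))))) .P)) (.rot (.cut 256 1 .P (.rot (.cut 1 13 (.rot (.rot (.cut 1 3 (.rot (.rot (.cut 3 2 (.rot (.cut 1 2 (.R 19 0 true) .P)) .P))) .P))) (.cut 1 35 (.rot (.rot (.cut 2 3 (.rot (.rot (.cut 1 2 (.cut 2 1 (.R 19 0 true) (.rot (.cut 4 3 .P (.cut 1 6 .P (.R 19 0 true))))) .P))) (.R 19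 0 true)))) (.rot (.rot (.cut 2 1 .P (.rot (.cut 1 64 (.rot (.rot (.cut 1 2 .P (.rot (.cut 2 1 (.R 19 0 true) (.cut 1 2 (.R 19 0 true) .P)))))) .P))))))))))))) (.rot (.cut 1 7 (.rot (.rot (.cut 1 7 (.rot (.rot (.cut 2 1 (.rot (.cut 4 3 (.rot (.rot (.cut 4 1 (.rot (.rot (.cut 1 32 (.rot (.cut 1 9 (.R 20 0 true) (.rot (.cut 3 1 (.rot (.rot (.cut 1 18 (.R 20 0 true) (.rot (.cut 7 1 .P (.R 20 0 true)))))) (.R 20 0 true))))) (.rot (.cut 8 1 (.rot (.rot (.cut 1 64 (.R 20 0 true) (.cut 1 128 (.rot (.cut 1 16 (.rot (.rot (.cut 2 1 (.R 20 0 true) .P))) (.R 20 0 true))) .P)))) (.rot (.cut 9 1 (.cut 18 1 .P (.R 20 0 true)) (.R 20 0 true)))))))) (.rot (.cut 9 1 .P (.cut 1 2 .P (.cut 1 4 .P (.rot (.cut 1 3 (.rot (.cut 4 1 (.R 20 0 true) .P)) (.cut 1 7 (.rot (.cut 3 2 (.R 20 0 true) (.rot (.cut 1 4 .P (.R 20 0 true)))))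 .P)))))))))) (.rot (.cut 1 2 (.rot (.rot (.cut 1 8 (.R 20 0 true) (.rot (.cut 3 1 .P (.R 20 0 true)))))) (.rot (.cut 32 1 (.rot (.rot (.cut 1 6 .N (.rot (.cut 64 1 (.rot (.rot (.cut 1 13 (.R 20 0 true) (.rot (.cut 128 1 .P (.cut 1 2 .P (.R 20 0 true))))))) .N))))) (.R 20 0 true))))))) (.rot (.cut 3 1 .P (.rot (.cut 3 4 (.rot (.rot (.cut 1 2 .P (.rot (.cut 8 1 .P (.rot (.rot (.cut 4 1 .P (.rot (.rot (.cut 3 1 (.rot (.cut 1 3 .P (.R 20 0 true))) .P))))))))))) .P))))))) (.rot (.cut 3 1 .P (.rot (.rot (.cut 1 3 (.rot (.rot (.cut 2 1 (.rot (.rot (.cut 1 10 (.rot (.rot (.cut 3 2 (.rot (.rot (.cut 1 3 (.rot (.rot (.cut 1 2 (.R 20 0 true) (.rot (.cut 2 1 .P (.R 20 0 true)))))) (.R 20 0 true)))) (.rot (.cut 2 1 .P (.rot (.rot (.cut 1 1 (.rot (.rot (.cut 2 1 .P (.rot (.cut 2 1 (.R 20 0 true) .P))))) .P))))))))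 (.rot (.cut 6 1 (.cut 13 1 .P (.rot (.rot (.cut 4 3 (.rot (.rot (.cut 3 2 (.R 20 0 true) (.cut 1 4 (.R 20 0 true) .P)))) (.R 20 0 true))))) (.rot (.cut 3 1 .N (.rot (.cut 2 3 (.rot (.rot (.cut 1 2 (.R 20 0 true) (.rot (.cut 4 1 .P (.R 20 0 true)))))) .N))))))))) (.cut 1 3 (.rot (.cut 1 2 (.R 20 0 true) (.rot (.cut 2 3 .P (.R 20 0 true))))) .P)))) .P)))))))) (.rot (.rot (.cut 1 2 .P (.rot (.cut 1 21 (.rot (.rot (.cut 1 4 .P (.cut 1 8 .P .P)))) .P)))))))))))) (.cut 1 512 .P .P))))) (.rot (.rot (.cut 1 29 (.rot (.rot (.cut 2048 1 (.rot (.cut 1 1 (.rot (.rot (.cut 32768 1 .P (.cut 1 4 .P .P)))) .P)) (.rot (.cut 5 1 .P (.rot (.cut 1 1 (.rot (.cut 1 1 .P (.rot (.rot (.cut 8 1 (.rot (.cut 1 5 (.rot (.cut 1 30 (.rot (.rot (.cut 2 1 .P (.rot (.cut 2 1 (.rot (.rot (.cut 1 2 (.cut 2 1 (.rot (.rot (.cut 1 2 (.R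 19 0 true) .P))) (.R 19 0 true)) .N))) (.cut 1 2 (.rot (.rot (.cut 2 1 .P (.R 19 0 true)))) .P)))))) .P)) (.rot (.cut 1 3 (.cut 3 1 (.rot (.rot (.cut 1 15 (.cut 2 1 .N (.rot (.cut 1 5 (.rot (.rot (.cut 1 2 (.R 19 0 true) .P))) (.R 19 0 true)))) (.rot (.cut 5 1 .P (.rot (.cut 5 1 (.rot (.rot (.cut 1 2 .P (.cut 1 4 .P (.R 19 0 true))))) .P))))))) .N) (.rot (.cut 30 1 (.rot (.rot (.cut 1 6 (.rot (.rot (.cut 1 10 (.rot (.cut 1 10 (.rot (.rot (.cut 2 1 .P (.R 19 0 true)))) .P)) (.rot (.cut 2 1 .N (.rot (.cut 10 1 (.rot (.rot (.cut 1 2 (.R 19 0 true) .P))) (.R 19 0 true)))))))) .P))) (.cut 1 2 (.rot (.rot (.cut 10 1 .N (.rot (.cut 2 1 (.rot (.rot (.cut 1 2 (.R 19 0 true) .P))) (.R 19 0 true)))))) .N))))))) (.rot (.rot (.cut 5 1 (.cut 15 1 .P (.rot (.cut 1 4 (.rot (.cut 4 3 (.rot (.rot (.cut 2 1 (.R 19 0 true)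 .P))) (.rot (.cut 1 2 (.cut 2 1 .P (.R 19 0 true)) (.R 19 0 true))))) .P))) (.cut 1 2 (.rot (.rot (.cut 4 1 .P (.rot (.cut 2 1 (.rot (.cut 1 2 (.R 19 0 true) (.rot (.cut 1 2 .P (.R 19 0 true))))) (.rot (.rot (.cut 2 1 .P (.rot (.cut 1 2 (.R 19 0 true) .P)))))))))) .P))))))))) .P))))))) .P)))))) (.cut 1 2147483648 (.rot (.cut 1 8388608 (.rot (.cut 1 55 (.rot (.cut 1 512 (.rot (.rot (.cut 4 1 (.R 7 0 false) (.rot (.cut 64 1 (.cut 128 1 .P (.R 7 0 false)) (.R 7 0 false)))))) (.R 7 0 false))) (.rot (.cut 62 1 .P (.rot (.cut 512 1 .P (.cut 1 64 (.rot (.rot (.cut 14 1 .P (.R 7 0 false)))) .P))))))) (.rot (.cut 1048576 1 (.rot (.cut 128 1 (.rot (.cut 1 4294967296 .P (.rot (.cut 16777216 1 (.rot (.rot (.cut 1 34359738368 .P .P))) .P)))) (.rot (.rot (.cut 4294967296 1 (.F 7 false) (.rot (.cut 1 8 .P (.R 7 0 false))))))))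 (.rot (.rot (.cut 1 128 (.rot (.rot (.cut 55 1 .P (.rot (.cut 8 1 (.rot (.rot (.cut 1 4 .P (.R 7 0 false)))) .P))))) (.rot (.cut 1 16 .P .P))))))))) (.F 7 false)))) (.rot (.cut 1 2048 (.rot (.rot (.cut 1 16384 (.rot (.cut 1 9 (.rot (.rot (.cut 128 1 (.rot (.rot (.cut 1 512 (.rot (.rot (.cut 2 1 (.rot (.rot (.cut 1 7 .P (.rot (.cut 8 1 (.rot (.rot (.cut 1 15 (.cut 2 1 .P (.rot (.cut 1 2 (.rot (.rot (.cut 1 2 (.cut 2 1 .P (.R 4 0 true)) (.R 4 0 true)))) .P))) (.rot (.cut 16 1 .N (.cut 1 2 (.R 4 0 true) (.rot (.cut 2 1 .P (.R 4 0 true))))))))) .P))))) (.rot (.cut 8 1 (.rot (.rot (.cut 1 5 (.cut 3 1 (.rot (.rot (.cut 1 5 (.cut 2 1 (.rot (.rot (.cut 3 4 (.cut 6 1 (.rot (.rot (.cut 1 3 (.cut 2 1 (.rot (.rot (.cut 1 4 (.cut 2 1 (.rot (.rot (.cut 1 1 (.R 17 0 true) .P))) (.R 17 0 true)) .N))) (.cut 1 2 (.rot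 (.rot (.cut 1 1 .P (.R 17 0 true)))) .P)) .P))) (.cut 1 2 (.rot (.rot (.cut 4 1 .N (.rot (.cut 2 1 (.rot (.rot (.cut 1 2 (.R 17 0 true) .P))) (.R 17 0 true)))))) .N)) (.R 17 0 true)))) (.cut 1 2 (.rot (.rot (.cut 3 1 .P (.rot (.cut 2 1 (.rot (.rot (.cut 1 2 (.cut 2 1 (.rot (.rot (.cut 1 2 (.R 17 0 true) .P))) (.R 17 0 true)) .N))) (.cut 1 2 (.rot (.rot (.cut 2 1 .P (.rot (.cut 2 1 (.R 17 0 true) .P))))) .P)))))) .P)) .P))) (.cut 1 2 (.rot (.rot (.cut 4 3 (.R 17 0 true) (.rot (.cut 2 1 (.rot (.rot (.cut 1 6 (.rot (.rot (.cut 3 2 (.rot (.cut 1 2 (.rot (.rot (.cut 6 1 .P (.R 17 0 true)))) .P)) (.rot (.cut 2 1 .N (.rot (.cut 2 1 (.rot (.rot (.cut 1 2 (.R 17 0 true) .P))) (.R 17 0 true)))))))) .P))) (.cut 1 2 (.rot (.rot (.cut 2 3 .N (.rot (.cut 2 1 (.rot (.rot (.cut 1 6 (.R 17 0 true) .P))) (.R 17 0 true))))))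 .N)))))) (.cut 1 5 (.R 17 0 true) (.cut 1 10 (.R 17 0 true) (.rot (.cut 3 2 (.rot (.rot (.cut 1 20 (.R 17 0 true) .P))) (.R 17 0 true))))))) .P))) (.cut 1 4 (.rot (.rot (.cut 5 1 .P (.rot (.cut 2 1 (.rot (.rot (.cut 1 2 (.cut 2 1 (.rot (.rot (.cut 1 2 (.rot (.rot (.cut 1 2 .P (.rot (.cut 2 1 (.rot (.rot (.cut 1 4 .P (.rot (.cut 4 1 (.R 17 0 true) .P))))) .P))))) .P))) (.cut 1 2 (.rot (.rot (.cut 2 1 (.cut 4 1 (.R 17 0 true) (.rot (.cut 1 1 .P (.R 17 0 true)))) (.rot (.cut 2 1 .P (.rot (.cut 1 1 (.rot (.rot (.cut 1 2 .P (.R 17 0 true)))) .P))))))) .N)) (.R 17 0 true)))) (.cut 1 2 (.rot (.rot (.cut 2 1 .P (.rot (.cut 2 1 (.rot (.rot (.cut 1 2 .P (.rot (.cut 4 1 (.rot (.rot (.cut 1 4 .P (.rot (.cut 8 1 (.R 17 0 true) .P))))) .P))))) .P))))) .P)))))) .P)))))) (.rot (.rot (.cut 7 1 (.rot (.cut 1 8192 (.rot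 (.cut 1 29 (.rot (.cut 1 4 (.rot (.rot (.cut 2 1 .P (.cut 1 2 .P (.R 4 0 true))))) .P)) (.rot (.cut 15 1 .N (.rot (.cut 4 1 (.rot (.rot (.cut 1 2 (.cut 2 1 (.R 4 0 true) (.cut 1 2 (.R 4 0 true) .P)) .P))) (.R 4 0 true))))))) (.rot (.cut 512 1 (.cut 1024 1 .P (.rot (.cut 16 1 (.rot (.rot (.cut 1 2 .P (.rot (.cut 32 1 (.R 4 0 true) .P))))) .P))) (.rot (.cut 29 1 .N (.rot (.cut 1 16 (.rot (.rot (.cut 1 2 (.rot (.rot (.cut 1 1 .P (.rot (.cut 2 1 (.R 4 0 true) .P))))) .P))) (.rot (.rot (.cut 1 1 (.R 4 0 true) (.rot (.cut 1 32 .P (.R 4 0 true)))))))))))))) .P)))))) (.rot (.cut 19 1 (.cut 64 1 .N (.rot (.cut 1 2 (.rot (.rot (.cut 1 2 (.cut 2 1 (.rot (.cut 1 2 (.rot (.rot (.cut 4 1 (.rot (.rot (.cut 1 5 .P (.rot (.cut 8 1 (.R 4 0 true) .P))))) .P))) (.rot (.cut 1 1 (.cut 4 1 .P (.rot (.cut 3 1 (.R 4 0 true)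 .P))) (.rot (.rot (.cut 1 3 (.rot (.rot (.cut 5 1 (.R 4 0 true) .P))) (.R 4 0 true)))))))) .P) .P))) (.cut 1 7 (.rot (.cut 1 5 (.rot (.rot (.cut 3 1 (.rot (.rot (.cut 1 12 (.R 4 0 true) (.cut 1 24 (.R 4 0 true) .P)))) (.R 4 0 true)))) (.rot (.cut 1 1 .N (.rot (.cut 12 1 (.rot (.rot (.cut 1 4 (.R 4 0 true) (.rot (.cut 24 1 .P (.R 4 0 true)))))) .N)))))) .N)))) (.rot (.rot (.cut 2 1 (.rot (.rot (.cut 1 2 (.rot (.rot (.cut 1 6 .P (.rot (.cut 5 1 (.rot (.rot (.cut 1 14 (.cut 3 2 (.rot (.cut 1 10 .P (.rot (.cut 2 1 (.rot (.cut 5 1 (.rot (.rot (.cut 5 1 (.cut 10 1 .P (.R 17 0 true)) (.R 17 0 true)))) .P)) (.rot (.cut 15 1 (.rot (.rot (.cut 1 2 (.R 17 0 true) .P))) (.rot (.cut 1 5 .P (.R 17 0 true))))))))) .P) .P))) (.cut 1 3 (.cut 2 1 (.rot (.rot (.cut 1 2 (.rot (.rot (.cut 1 2 (.R 17 0 true) (.rot (.cut 2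 1 .P (.R 17 0 true)))))) (.rot (.cut 5 1 (.rot (.rot (.cut 1 5 .N (.rot (.cut 10 1 (.rot (.rot (.cut 1 10 (.R 17 0 true) (.rot (.cut 20 1 .P (.R 17 0 true)))))) .N))))) .N))))) (.rot (.rot (.cut 2 1 .P (.rot (.cut 1 2 (.cut 2 1 (.R 17 0 true) (.cut 1 2 (.R 17 0 true) .P)) .P)))))) .P)))))) (.cut 1 8 .P (.rot (.cut 7 1 (.rot (.rot (.cut 1 16 (.cut 2 1 (.rot (.rot (.cut 2 3 (.R 4 0 true) (.cut 1 6 (.R 4 0 true) .P)))) (.R 4 0 true)) .N))) (.cut 1 3 (.rot (.cut 1 5 (.R 4 0 true) (.rot (.cut 3 2 (.cut 6 1 .P (.R 4 0 true)) (.R 4 0 true))))) .P))))))) (.rot (.rot (.cut 6 1 (.cut 14 1 .P .P) .P))))))))))) (.rot (.cut 1 26 (.rot (.rot (.cut 1 128 (.rot (.rot (.cut 1 1 (.rot (.cut 11 1 (.rot (.cut 1 64 .P (.rot (.cut 15 1 .P (.cut 1 8 (.rot (.rot (.cut 1 7 .P (.rot (.cut 2 1 (.cut 5 1 .P .P) .P))))) .P)))))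 .P)) .P))) .P))) (.rot (.cut 512 1 .P (.cut 1 8 (.cut 4 1 .P (.rot (.cut 1 512 (.cut 5 1 (.rot (.rot (.cut 1 2 (.cut 2 1 .P (.rot (.cut 2 1 (.rot (.rot (.cut 1 2 .P (.rot (.cut 4 1 (.rot (.rot (.cut 1 4 .P (.cut 1 8 .P (.R 17 0 true))))) .P))))) .P))) (.rot (.cut 20 1 (.R 17 0 true) (.cut 1 2 .N (.rot (.cut 1 2 (.rot (.rot (.cut 1 5 (.rot (.rot (.cut 3 1 (.rot (.rot (.cut 1 5 (.R 17 0 true) (.rot (.cut 5 1 (.cut 11 1 .P (.R 17 0 true)) (.R 17 0 true)))))) (.R 17 0 true)))) .P))) (.cut 1 4 (.rot (.rot (.cut 1 3 (.R 17 0 true) (.rot (.cut 2 1 (.rot (.rot (.cut 1 5 (.R 17 0 true) (.cut 1 11 (.R 17 0 true) .P)))) (.R 17 0 true)))))) (.R 17 0 true)))))))))) .P) .P))) (.rot (.cut 1 1 .P (.rot (.cut 512 1 (.rot (.rot (.cut 1 15 (.rot (.rot (.cut 1 128 (.cut 5 1 .P (.cut 1 3 .P (.rot (.cut 1 62 (.R 17 0 true)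 .P)))) (.rot (.cut 8 1 .P (.cut 1 2 .P (.rot (.cut 62 1 (.rot (.rot (.cut 1 5 (.R 17 0 true) .P))) (.R 17 0 true))))))))) .P))) (.rot (.rot (.cut 128 1 (.cut 512 1 .P (.cut 1 2 .P (.cut 1 4 .P (.cut 1 8 .P (.R 17 0 true))))) (.rot (.cut 1 5 (.rot (.rot (.cut 1 5 (.cut 3 1 (.rot (.rot (.cut 3 2 (.cut 6 1 .P (.R 17 0 true)) (.R 17 0 true)))) .P) .P))) (.cut 1 20 (.rot (.rot (.cut 2 3 (.R 17 0 true) (.rot (.cut 2 1 (.rot (.rot (.cut 1 6 (.R 17 0 true) (.rot (.cut 5 1 .P (.R 17 0 true)))))) .N))))) (.R 17 0 true)))))))))))))))))) (.rot (.cut 16384 1 (.rot (.rot (.cut 1 2097152 (.rot (.cut 1 3 (.rot (.cut 1 12 .N .N)) (.rot (.rot (.cut 12 1 (.rot (.cut 1 11 (.rot (.cut 1 64 (.rot (.rot (.cut 3 1 .N (.rot (.cut 2 1 (.rot (.rot (.cut 1 2 (.rot (.rot (.cut 3 4 (.rot (.cut 1 5 .P (.rot (.cut 1 1 (.cut 2 1 (.R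 4 0 true) .P) .P)))) (.R 4 0 true)))) (.rot (.cut 4 1 (.cut 9 1 .N (.cut 1 2 (.R 4 0 true) (.rot (.cut 1 2 .P (.R 4 0 true))))) (.rot (.cut 1 1 .P (.cut 1 2 .P (.rot (.cut 2 1 (.R 4 0 true) .P)))))))))) (.cut 1 2 (.rot (.rot (.cut 4 3 (.R 4 0 true) .P))) (.R 4 0 true))))))) .N)) (.rot (.cut 1 4 (.cut 3 1 (.rot (.rot (.cut 1 52 (.R 4 0 true) (.rot (.cut 5 1 (.rot (.rot (.cut 1 128 (.R 4 0 true) (.cut 1 256 (.R 4 0 true) .P)))) (.R 4 0 true)))))) (.cut 1 2 (.rot (.rot (.cut 1 12 (.rot (.rot (.cut 3 1 (.rot (.rot (.cut 1 7 (.rot (.rot (.cut 3 2 .P (.rot (.cut 2 1 (.rot (.rot (.cut 1 4 (.cut 2 1 (.rot (.rot (.cut 4 3 (.rot (.rot (.cut 1 5 (.rot (.rot (.cut 2 3 (.rot (.rot (.cut 3 4 (.R 4 0 true) .P))) (.R 4 0 true)))) (.cut 1 10 (.rot (.rot (.cut 4 3 .P (.R 4 0 true)))) .P)))) (.rot (.cut 4 1 .P (.rot (.cut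 3 2 (.R 4 0 true) .P))))))) (.R 4 0 true)) (.R 4 0 true)))) .P))))) .P))) (.cut 1 3 (.rot (.rot (.cut 2 3 (.rot (.cut 1 2 (.rot (.rot (.cut 4 1 .N (.cut 1 2 .N (.rot (.cut 2 1 (.rot (.rot (.cut 1 4 (.R 4 0 true) .P))) (.R 4 0 true))))))) .N)) (.rot (.cut 2 1 .P (.rot (.cut 2 1 (.rot (.rot (.cut 1 2 (.rot (.rot (.cut 1 3 (.cut 2 1 (.R 4 0 true) .P) .P))) (.R 4 0 true)))) (.rot (.rot (.cut 3 1 .P (.rot (.cut 1 2 (.rot (.rot (.cut 1 2 .P (.R 4 0 true)))) .P)))))))))))) .N)))) (.rot (.rot (.cut 7 1 .P (.cut 1 2 (.rot (.rot (.cut 33 1 (.cut 64 1 (.R 4 0 true) .P) .P))) (.R 4 0 true)))))))) (.rot (.cut 7 1 .P (.rot (.cut 1 3 (.rot (.rot (.cut 1 2 .P (.rot (.cut 3 1 (.rot (.rot (.cut 1 4 (.cut 2 1 (.rot (.rot (.cut 2 3 .N (.rot (.cut 4 1 (.rot (.rot (.cut 1 5 (.R 4 0 true) (.rot (.cut 8 1 .P (.R 4 0 true))))))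 .N))))) .N) .N))) (.cut 1 2 (.cut 2 1 (.rot (.rot (.cut 3 2 (.cut 5 1 .P (.R 4 0 true)) (.R 4 0 true)))) .P) .P)))))) .P)))))) (.rot (.cut 64 1 (.rot (.rot (.cut 1 9 (.cut 3 2 (.rot (.rot (.cut 1 18 (.cut 2 1 (.R 4 0 true) .P) .P))) (.R 4 0 true)) .N))) (.cut 1 2 (.rot (.rot (.cut 18 1 .P (.rot (.cut 2 1 (.rot (.rot (.cut 1 2 .P (.R 4 0 true)))) .P))))) (.rot (.cut 1 7 (.rot (.rot (.cut 1 4 .P (.rot (.cut 2 1 (.rot (.rot (.cut 1 9 (.cut 2 1 .P (.rot (.cut 1 4 (.R 4 0 true) (.cut 1 8 (.R 4 0 true) .P)))) (.rot (.cut 4 1 .N (.cut 1 2 .N (.rot (.cut 4 1 (.rot (.rot (.cut 1 4 .N (.rot (.cut 8 1 (.rot (.rot (.cut 1 8 (.R 4 0 true) .P))) (.R 4 0 true)))))) .N)))))))) .P))))) .P))))))))) (.rot (.rot (.cut 11 1 (.rot (.rot (.cut 1 41 .N (.rot (.cut 52 1 (.rot (.rot (.cut 1 128 .N (.rot (.cut 128 1 (.cut 256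 1 (.rot (.rot (.cut 1 256 (.R 4 0 true) .P))) (.R 4 0 true)) .N))))) .N))))) (.cut 1 3 (.R 4 0 true) .N))))))))) (.rot (.cut 1048576 1 (.rot (.cut 1 1 (.cut 4 3 (.rot (.rot (.cut 8388608 1 (.rot (.rot (.cut 1 134217728 (.cut 3 1 (.rot (.rot (.cut 8 1 (.rot (.rot (.cut 1 29 (.cut 3 2 .N (.rot (.cut 1 4 (.rot (.rot (.cut 1 4 .N (.rot (.cut 2 1 (.rot (.rot (.cut 1 8 .N (.R 3 0 true)))) .N))))) .N))) (.rot (.cut 14 1 .P (.cut 1 2 (.rot (.cut 1 1 (.rot (.rot (.cut 2 1 (.R 3 0 true) .N))) (.R 3 0 true))) (.rot (.cut 4 1 .N (.rot (.cut 1 1 (.rot (.rot (.cut 1 2 .N (.R 3 0 true)))) .N)))))))))) .N))) (.rot (.cut 1 10 (.rot (.cut 2 1 (.rot (.rot (.cut 2 1 .N (.cut 1 2 .N (.R 3 0 true))))) .N)) (.rot (.cut 29 1 .P (.rot (.cut 1 2 (.rot (.rot (.cut 2 3 (.cut 4 1 (.rot (.cut 1 5 (.rot (.rot (.cut 8 1 (.R 3 0 true)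 .N))) (.R 3 0 true))) .N) .N))) (.R 3 0 true)))))))) (.rot (.cut 16777216 1 .N (.rot (.cut 10 1 (.rot (.rot (.cut 3 4 (.rot (.rot (.cut 1 13 (.R 3 0 true) (.rot (.cut 5 1 .N (.cut 1 2 .N (.R 3 0 true))))))) .P))) (.rot (.rot (.cut 13 1 .N (.rot (.cut 1 2 (.cut 2 1 (.R 3 0 true) .N) .N)))))))))))) (.cut 3 4 (.rot (.rot (.cut 1 8 .N (.rot (.cut 5 1 (.rot (.rot (.cut 1 14 (.cut 2 1 .N (.rot (.cut 1 2 (.rot (.cut 1 1 (.R 3 0 true) (.rot (.cut 1 2 .N (.R 3 0 true))))) .N))) (.rot (.cut 10 1 .P (.rot (.cut 2 1 (.rot (.rot (.cut 1 2 (.R 3 0 true) .N))) (.R 3 0 true)))))))) .N))))) .N)))) .N) .N)) (.rot (.cut 3 1 (.rot (.rot (.cut 1 18 .N (.rot (.cut 41 1 (.rot (.rot (.cut 1 48 .N (.rot (.cut 128 1 (.rot (.rot (.cut 1 128 (.R 4 0 true) (.rot (.cut 256 1 .P (.R 4 0 true)))))) .N))))) .N))))) .N))))))) (.rot (.cut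 9 1 .P (.cut 1 19 (.rot (.cut 1 20 .P .P)) (.rot (.cut 4 1 (.rot (.rot (.cut 1 64 (.cut 2 1 .P (.rot (.cut 1 13 (.rot (.rot (.cut 1 2 .P (.rot (.cut 2 1 (.rot (.rot (.cut 1 4 .P (.rot (.cut 4 1 (.rot (.rot (.cut 1 8 .P (.R 4 0 true)))) .P))))) .P))))) .P))) (.rot (.cut 9 1 .N (.cut 2 3 (.R 4 0 true) (.rot (.cut 13 1 .P (.cut 1 2 .P (.cut 1 4 .P (.R 4 0 true))))))))))) (.cut 1 3 .P (.rot (.cut 20 1 (.rot (.rot (.cut 1 5 (.R 4 0 true) .P))) .P))))))))))))) (.rot (.cut 524288 1 (.rot (.rot (.cut 1 33554432 .P (.rot (.cut 2147483648 1 (.R 7 0 false) .P))))) (.cut 1 2048 .P (.rot (.cut 26 1 (.rot (.rot (.cut 1 32768 (.cut 4 1 .P .P) .P))) .P)))))))))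

theorem c3 : Covered packed FP FN O (-1, 0, 0) (0, -1, 0) (0, 0, 1) :=
  Tr.check_sound t3 (by decide +kernel)

end Pool.Agent.Rohlin.Octic.O13
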