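import Pool.Agent.Rohlin.Octic.O13.Ovals

/-!
# The octic O13: subdivision trees, part 4
-/

set_option autoImplicit false

namespace Pool.Agent.Rohlin.Octic.O13

open Pool.Agent.Rohlin.Cone

/-- tree -/
def t4 : Tr :=
  (.rot (.cut 1 524288 (.rot (.rot (.cut 4096 1 (.cut 524288 1 (.rot (.rot (.cut 1 1048576 .P (.cut 1 16777216 .P (.rot (.rot (.cut 512 1 .P (.cut 1 30 (.rot (.rot (.cut 1073741824 1 (.rot (.rot (.cut 1 4294967296 (.cut 2 1 .P (.rot (.cut 1 7 (.rot (.rot (.cut 1 2 (.rot (.cut 1 2 (.rot (.rot (.cut 2 1 .P (.rot (.rot (.cut 3 4 (.rot (.rot (.cut 2 1 (.rot (.rot (.cut 1 17 (.rot (.rot (.cut 3 1 (.R 9 0 true) (.rot (.cut 2 1 .P (.R 9 0 true)))))) .N))) (.cut 1 2 (.rot (.rot (.cut 1 3 .P (.R 9 0 true)))) .P)))) (.rot (.cut 1 2 (.rot (.cut 4 1 (.rot (.rot (.cut 2 1 .P (.R 9 0 true)))) .P))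 (.rot (.cut 17 1 .N (.rot (.cut 1 4 (.rot (.rot (.cut 1 2 (.R 9 0 true) .P))) (.R 9 0 true))))))))))))) .P)) (.rot (.cut 4 1 (.R 9 0 true) (.rot (.cut 2 1 .P (.cut 1 2 (.cut 2 1 .P (.R 9 0 true)) (.R 9 0 true))))))))) .P))) (.cut 1 4294967296 (.rot (.rot (.cut 7 1 .P (.rot (.rot (.cut 4 1 .P (.cut 1 2 .P (.rot (.cut 1 4 .P (.rot (.cut 9 1 (.rot (.cut 1 3 .P (.R 9 0 true))) .P))))))))))) .P)))) .P))) (.rot (.rot (.cut 4294967296 1 (.rot (.rot (.cut 1 67108864 (.rot (.cut 256 1 .P (.rot (.cut 1 128 (.rot (.cut 3 2 (.rot (.rot (.cut 2 1 (.rot (.cut 3 1 (.R 9 0 true) (.rot (.cut 1 14 (.cut 3 1 (.rot (.rot (.cut 1 2 (.R 9 0 true) .P))) (.R 9 0 true)) (.R 9 0 true))))) (.rot (.cut 7 1 (.rot (.rot (.cut 1 2 (.R 9 0 true) (.rot (.cut 15 1 (.rot (.rot (.cut 1 4 (.cut 2 1 (.R 9 0 true) .P) .P))) (.R 9 0 true))))))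 (.rot (.cut 1 3 (.rot (.rot (.cut 1 2 (.R 9 0 true) (.rot (.cut 2 1 .P (.R 9 0 true)))))) (.R 9 0 true)))))))) (.rot (.cut 1 2 .P (.cut 1 4 .P (.rot (.cut 14 1 (.rot (.cut 1 3 (.R 9 0 true) (.rot (.cut 1 7 .P (.R 9 0 true))))) (.cut 1 3 (.rot (.rot (.cut 3 1 .P (.R 9 0 true)))) .P)))))))) (.rot (.cut 512 1 .P (.rot (.cut 2 3 .P (.cut 1 7 .P (.rot (.cut 3 1 (.rot (.rot (.cut 1 15 (.cut 2 1 .P .P) .P))) .P))))))))))) .P))) (.cut 1 2 (.rot (.rot (.cut 128 1 .P (.rot (.cut 2 1 (.rot (.rot (.cut 1 2 (.rot (.rot (.cut 1 2 (.R 9 0 true) (.rot (.cut 2 1 (.cut 4 1 .P (.cut 1 2 .P (.R 9 0 true))) (.R 9 0 true)))))) (.R 9 0 true)))) (.rot (.rot (.cut 2 1 .P (.rot (.cut 1 2 (.cut 2 1 (.R 9 0 true) (.rot (.cut 1 1 (.rot (.cut 1 1 .P (.rot (.cut 1 2 (.R 9 0 true) .P)))) (.rot (.rot (.cut 1 1 (.R 9 0 true) .P))))))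 .P)))))))))) .P)))))))))))) (.rot (.cut 29 1 (.rot (.cut 1 29 (.rot (.rot (.cut 512 1 (.rot (.rot (.cut 1 1024 (.cut 5 1 .P (.rot (.rot (.cut 14 1 (.rot (.cut 1 10 .P .P)) (.rot (.cut 1 3 (.cut 3 1 .P (.rot (.rot (.cut 2 1 (.rot (.rot (.cut 1 1 (.rot (.rot (.cut 1 5 (.cut 2 1 .P (.rot (.cut 1 5 (.R 8 0 true) (.cut 1 10 (.R 8 0 true) .P)))) (.rot (.cut 2 1 .N (.rot (.cut 5 1 (.rot (.rot (.cut 1 2 .N (.rot (.cut 10 1 (.rot (.rot (.cut 1 4 (.R 8 0 true) .P))) (.R 8 0 true)))))) .N))))))) .P))) (.rot (.cut 1 2 (.rot (.cut 1 1 (.rot (.rot (.cut 2 1 .P (.cut 1 2 .P (.R 8 0 true))))) .P)) (.rot (.cut 5 1 .N (.rot (.cut 1 1 (.rot (.rot (.cut 1 2 (.R 8 0 true) .P))) (.R 8 0 true))))))))))) (.rot (.cut 10 1 (.rot (.rot (.cut 1 7 (.R 8 0 true) (.cut 1 14 (.rot (.cut 3 4 (.rot (.rot (.cut 2 1 (.R 8 0 true) .P)))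 (.R 8 0 true))) .P)))) (.rot (.cut 1 1 .P (.cut 1 2 (.rot (.rot (.cut 3 4 (.R 8 0 true) (.cut 1 8 (.R 8 0 true) (.rot (.cut 2 1 (.cut 4 1 .P (.R 8 0 true)) (.R 8 0 true))))))) (.R 8 0 true)))))))))))) .P))) .P))) (.rot (.rot (.cut 1024 1 .P (.rot (.cut 1 2048 (.rot (.rot (.cut 1 5 (.rot (.rot (.cut 1 5 .P (.rot (.rot (.cut 4 1 (.rot (.rot (.cut 3 1 (.rot (.rot (.cut 1 21 (.rot (.rot (.cut 4 1 (.R 8 0 true) (.rot (.cut 2 1 .P (.cut 1 2 .P (.rot (.rot (.cut 3 1 (.R 8 0 true) (.rot (.cut 1 4 .P (.R 8 0 true)))))))))))) (.rot (.cut 7 1 (.rot (.rot (.cut 1 49 (.cut 2 1 (.R 8 0 true) (.rot (.cut 1 7 .P (.R 8 0 true)))) (.rot (.cut 14 1 .P (.rot (.cut 7 1 (.rot (.rot (.cut 1 2 .P (.R 8 0 true)))) .P))))))) (.R 8 0 true)))))) (.cut 1 3 (.rot (.rot (.cut 1 4 .P (.rot (.rot (.cut 4 1 (.rot (.rot (.cut 2 1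 (.R 8 0 true) (.cut 1 2 (.cut 2 1 (.R 8 0 true) .P) .P)))) (.R 8 0 true))))))) .P)))) (.rot (.rot (.cut 21 1 .P .P))))))))) .P))) .P))))))) .P))) (.rot (.cut 2048 1 (.rot (.cut 1 128 (.rot (.cut 1 16384 (.rot (.rot (.cut 11 1 (.rot (.rot (.cut 1 12 (.rot (.rot (.cut 1 4 (.cut 2 1 .N (.rot (.cut 1 2 (.rot (.rot (.cut 1 2 .N (.rot (.cut 2 1 (.rot (.rot (.cut 1 4 (.R 4 0 true) (.rot (.cut 4 1 .P (.R 4 0 true)))))) .N))))) .N))) (.rot (.cut 4 1 .P (.rot (.cut 2 1 (.rot (.rot (.cut 1 2 (.rot (.rot (.cut 1 2 .N (.rot (.cut 2 1 (.cut 4 1 (.rot (.rot (.cut 1 4 .N (.rot (.cut 8 1 (.rot (.rot (.cut 1 8 (.R 4 0 true) .P))) (.R 4 0 true)))))) .N) .N))))) .N))) (.cut 1 2 (.rot (.rot (.cut 2 1 (.rot (.rot (.cut 1 4 .N (.rot (.cut 4 1 (.cut 8 1 (.rot (.rot (.cut 1 8 (.R 4 0 true) .P))) (.R 4 0 true)) .N))))) .N)))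 (.cut 1 4 (.rot (.rot (.cut 4 1 (.cut 8 1 .P (.R 4 0 true)) (.R 4 0 true)))) .P))))))))) (.cut 1 37 (.cut 2 1 (.R 4 0 true) (.rot (.cut 1 2 .P (.R 4 0 true)))) (.rot (.cut 38 1 .P (.cut 1 3 .P (.rot (.cut 2 1 (.R 4 0 true) .P))))))))) (.rot (.rot (.cut 4 1 .P (.rot (.cut 1 3 (.rot (.rot (.cut 1 2 (.rot (.cut 1 3 (.rot (.rot (.cut 2 1 (.rot (.rot (.cut 1 4 (.R 4 0 true) (.rot (.cut 4 1 .P (.R 4 0 true)))))) (.R 4 0 true)))) .P)) (.rot (.cut 2 1 .N (.cut 1 2 (.R 4 0 true) (.rot (.cut 3 1 .P (.R 4 0 true))))))))) .P)))))))) (.rot (.cut 32768 1 (.cut 131072 1 (.rot (.cut 1 1 (.rot (.rot (.cut 262144 1 .P (.rot (.cut 3 1 (.rot (.rot (.cut 1 2 .P (.rot (.cut 5 1 (.rot (.rot (.cut 1 4 (.cut 2 1 .P (.cut 1 2 .P (.R 4 0 true))) (.R 4 0 true)))) .P))))) .P))))) .P)) (.rot (.cut 4 1 .N (.rot (.cut 1 1 (.rot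 (.rot (.cut 1 2 (.rot (.rot (.cut 4 3 .P (.rot (.cut 2 1 (.rot (.rot (.cut 1 7 (.cut 2 1 .P (.rot (.cut 1 4 (.rot (.rot (.cut 1 2 .P (.rot (.cut 2 1 (.rot (.cut 1 1 (.R 4 0 true) (.rot (.cut 1 4 (.cut 2 1 .P (.R 4 0 true)) (.R 4 0 true))))) .P))))) .P))) (.rot (.cut 4 1 .N (.cut 1 2 (.R 4 0 true) (.rot (.cut 4 1 .P (.rot (.cut 1 1 (.rot (.rot (.cut 1 2 (.rot (.rot (.cut 1 1 (.R 4 0 true) .P))) (.R 4 0 true)))) (.cut 1 2 (.rot (.rot (.cut 1 1 .P (.R 4 0 true)))) .P))))))))))) .P))))) .P))) (.rot (.cut 3 2 (.rot (.cut 1 4 (.cut 2 1 (.R 4 0 true) (.rot (.cut 1 18 .P (.rot (.rot (.cut 4 3 (.R 4 0 true) (.rot (.cut 1 38 (.rot (.rot (.cut 1 6 (.R 4 0 true) (.rot (.cut 2 1 (.cut 4 1 .P (.R 4 0 true)) (.R 4 0 true)))))) (.R 4 0 true))))))))) (.rot (.cut 1 3 .P (.rot (.cut 18 1 (.rot (.rot (.cut 1 5 .P (.rot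 (.cut 38 1 (.R 4 0 true) (.cut 1 2 (.R 4 0 true) (.cut 1 4 (.R 4 0 true) .P))))))) .P)))))) (.rot (.cut 3 4 (.cut 7 1 .N (.rot (.cut 1 2 (.rot (.rot (.cut 1 2 (.rot (.rot (.cut 1 1 (.cut 2 1 (.rot (.rot (.cut 1 2 (.rot (.rot (.cut 1 2 (.cut 2 1 (.rot (.rot (.cut 1 1 .P (.R 4 0 true)))) .P) .P))) (.cut 1 4 (.rot (.rot (.cut 1 1 (.R 4 0 true) .P))) (.R 4 0 true))))) (.rot (.rot (.cut 2 1 (.rot (.rot (.cut 1 1 (.rot (.rot (.cut 1 4 .P (.rot (.cut 2 1 (.R 4 0 true) .P))))) .P))) (.rot (.rot (.cut 4 1 (.R 4 0 true) (.rot (.cut 1 2 .P (.R 4 0 true)))))))))) (.rot (.cut 2 1 (.cut 4 1 .N (.rot (.cut 1 2 (.rot (.rot (.cut 1 2 (.R 4 0 true) .P))) (.R 4 0 true)))) (.rot (.cut 1 1 .P (.rot (.cut 2 1 (.rot (.rot (.cut 1 2 .P (.R 4 0 true)))) .P))))))))) (.rot (.cut 2 1 .P (.rot (.cut 2 1 (.rot (.rot (.cut 1 2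 .P (.rot (.cut 4 1 (.rot (.rot (.cut 1 4 .P (.cut 1 8 .P (.R 4 0 true))))) .P))))) .P))))))) .N))) (.rot (.cut 4 1 .P (.cut 1 2 .P (.rot (.cut 2 1 (.R 4 0 true) (.cut 1 2 (.rot (.rot (.cut 1 1 .P (.rot (.cut 2 1 (.rot (.rot (.cut 1 2 .P (.rot (.cut 4 1 (.cut 8 1 (.R 4 0 true) .P) .P))))) .P))))) .P))))))))))))))) (.rot (.cut 12 1 (.rot (.rot (.cut 1 4 .N (.rot (.cut 37 1 (.rot (.rot (.cut 1 6 (.cut 2 1 (.rot (.rot (.cut 1 4 .P (.rot (.cut 4 1 (.R 4 0 true) .P))))) .P) .P))) (.cut 1 2 (.rot (.rot (.cut 4 1 (.R 4 0 true) .P))) (.R 4 0 true))))))) (.rot (.cut 1 4 (.rot (.rot (.cut 1 4 (.cut 2 1 .N (.rot (.cut 2 3 (.rot (.rot (.cut 1 2 .N (.rot (.cut 4 1 (.rot (.rot (.cut 1 4 (.R 4 0 true) (.rot (.rot (.cut 1 1 (.rot (.rot (.cut 8 1 (.rot (.cut 1 1 .P (.rot (.cut 1 16 (.R 4 0 true) .P)))) (.cut 1 2 (.rot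 (.rot (.cut 1 1 (.R 4 0 true) .P))) (.R 4 0 true))))) (.rot (.cut 1 8 (.R 4 0 true) (.rot (.cut 16 1 .P (.R 4 0 true))))))))))) (.R 4 0 true)))))) .N))) (.rot (.cut 2 1 .P (.rot (.rot (.cut 3 4 (.rot (.rot (.cut 3 2 (.cut 6 1 (.rot (.rot (.cut 1 11 (.rot (.rot (.cut 1 1 (.rot (.cut 1 1 (.rot (.rot (.cut 2 1 (.rot (.rot (.cut 1 4 (.cut 2 1 (.rot (.rot (.cut 1 1 .N (.rot (.cut 4 1 (.rot (.rot (.cut 1 2 (.R 4 0 true) .P))) (.R 4 0 true)))))) .N) .N))) (.cut 1 2 (.rot (.rot (.cut 1 1 (.cut 2 1 .P (.R 4 0 true)) (.R 4 0 true)))) .P)))) (.rot (.cut 1 2 (.rot (.rot (.cut 1 2 (.rot (.rot (.cut 1 1 (.rot (.rot (.cut 1 2 (.rot (.rot (.cut 1 1 (.R 4 0 true) (.rot (.cut 2 1 .P (.R 4 0 true)))))) .N))) (.cut 1 2 (.rot (.rot (.cut 1 1 .P (.R 4 0 true)))) .P)))) (.rot (.cut 2 1 (.rot (.cut 1 1 (.rot (.rot (.cut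 4 1 .P (.R 4 0 true)))) .P)) (.rot (.cut 2 1 .N (.rot (.cut 1 1 (.rot (.rot (.cut 1 2 (.R 4 0 true) .P))) (.R 4 0 true)))))))))) (.rot (.cut 4 1 .N (.rot (.cut 1 1 (.rot (.rot (.cut 1 2 .N (.rot (.cut 2 1 (.rot (.rot (.cut 1 4 (.R 4 0 true) .P))) (.R 4 0 true)))))) .N)))))))) .P))) (.cut 1 25 (.rot (.rot (.cut 2 1 .N (.rot (.cut 2 1 (.rot (.rot (.cut 1 2 .N (.rot (.cut 4 1 (.rot (.rot (.cut 1 4 (.R 4 0 true) .P))) (.R 4 0 true)))))) .N))))) .N)))) (.rot (.rot (.cut 1 1 (.rot (.rot (.cut 2 1 (.rot (.rot (.cut 1 4 (.cut 2 1 .P (.rot (.cut 1 2 (.rot (.rot (.cut 1 2 .P (.rot (.cut 2 1 (.R 4 0 true) .P))))) .P))) (.rot (.cut 4 1 (.R 4 0 true) (.rot (.cut 2 1 .P (.rot (.rot (.cut 2 1 (.R 4 0 true) (.rot (.cut 1 2 .P (.R 4 0 true))))))))))))) .P))) (.rot (.rot (.cut 4 1 .N (.rot (.cut 1 2 (.rot (.rot (.cut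 1 2 (.R 4 0 true) (.rot (.cut 2 1 .P (.R 4 0 true)))))) .N))))))))) (.cut 1 4 (.rot (.cut 3 4 (.rot (.cut 1 14 .P (.R 4 0 true))) (.rot (.cut 1 2 .P (.rot (.cut 14 1 (.rot (.rot (.cut 1 4 .P (.R 4 0 true)))) .P)))))) .P)))) (.rot (.cut 1 2 .P (.rot (.cut 11 1 (.rot (.cut 1 6 (.rot (.rot (.cut 25 1 (.rot (.rot (.cut 1 52 (.cut 2 1 (.rot (.rot (.cut 1 1 .N (.cut 1 2 (.rot (.cut 1 1 (.rot (.rot (.cut 2 1 (.R 4 0 true) .P))) (.R 4 0 true))) (.rot (.cut 4 1 .P (.rot (.cut 1 1 (.rot (.rot (.cut 1 2 .P (.R 4 0 true)))) .P)))))))) .N) .N))) (.rot (.cut 2 1 (.rot (.rot (.cut 1 2 (.rot (.rot (.cut 1 2 (.rot (.rot (.cut 1 1 (.R 4 0 true) (.rot (.cut 2 1 .P (.R 4 0 true)))))) .N))) (.cut 1 4 (.rot (.rot (.cut 1 1 .P (.R 4 0 true)))) .P)))) (.rot (.cut 1 1 (.rot (.cut 1 1 (.rot (.rot (.cut 2 1 .P (.cut 1 2 .P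 (.R 4 0 true))))) .P)) (.rot (.cut 2 1 .N (.rot (.cut 1 1 (.rot (.rot (.cut 1 2 (.R 4 0 true) .P))) (.R 4 0 true)))))))))))) (.rot (.cut 1 4 (.cut 2 1 .P (.rot (.cut 6 1 (.R 4 0 true) (.rot (.rot (.cut 6 1 .P (.rot (.cut 1 2 (.cut 2 1 (.R 4 0 true) .P) .P)))))))) (.rot (.cut 52 1 .N (.rot (.cut 1 6 (.rot (.rot (.cut 1 2 .N (.rot (.cut 2 1 (.rot (.rot (.cut 1 4 (.rot (.rot (.cut 1 1 .P (.rot (.cut 2 1 (.R 4 0 true) .P))))) .P))) (.rot (.rot (.cut 1 1 (.R 4 0 true) (.rot (.cut 1 2 .P (.R 4 0 true))))))))))) .N)))))))) .P)))))))))))) .N)))))))) .P)) (.rot (.cut 1 29 .P (.rot (.cut 128 1 (.rot (.rot (.cut 1 512 .P .P))) (.rot (.cut 1 1 (.rot (.rot (.cut 1 11 (.cut 3 1 .P (.cut 1 2 (.rot (.cut 1 29 (.rot (.rot (.cut 2 1 .P (.R 4 0 true)))) .P)) (.rot (.rot (.cut 29 1 (.rot (.rot (.cut 1 8 (.R 4 0 true)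 .P))) (.R 4 0 true)))))) (.cut 1 38 (.cut 3 1 (.rot (.rot (.cut 8 1 .P (.R 4 0 true)))) .P) .P)))) .P))))))))))) (.rot (.cut 2048 1 (.rot (.rot (.cut 1 2147483648 .P (.rot (.cut 4194304 1 (.rot (.rot (.cut 1 17179869184 .P (.rot (.cut 16777216 1 (.rot (.rot (.cut 1 17179869184 (.rot (.rot (.cut 512 1 (.cut 1024 1 .N (.R 7 2 true)) (.R 7 2 true)))) .N))) (.rot (.rot (.cut 1 512 .P (.rot (.cut 1 2 (.rot (.cut 512 1 (.rot (.rot (.cut 2 1 (.rot (.rot (.cut 1 1024 .P (.rot (.cut 4 1 (.rot (.rot (.cut 1 1024 .P (.rot (.cut 8 1 (.rot (.rot (.cut 1 2048 (.R 7 2 true) (.rot (.cut 16 1 (.rot (.cut 128 1 (.cut 256 1 (.rot (.rot (.cut 32 1 .N (.cut 1 2 .N (.R 7 2 true))))) .N) .N)) (.R 7 2 true)))))) .P))))) .P))))) .P))) (.rot (.cut 1 1024 (.R 7 2 true) (.cut 1 2048 (.R 7 2 true) (.rot (.cut 1024 1 (.rot (.rot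 (.cut 1 4096 (.R 7 2 true) (.rot (.cut 1024 1 (.cut 2048 1 .N (.R 7 2 true)) (.R 7 2 true)))))) (.R 7 2 true)))))))) .P)))))))))) .P))))) (.rot (.rot (.cut 1 65536 (.rot (.rot (.cut 1048576 1 (.rot (.rot (.cut 1 67108864 (.rot (.rot (.cut 13 1 .P (.rot (.cut 13 1 .P (.cut 1 4 .P (.rot (.cut 3 4 (.rot (.rot (.cut 1 12 (.rot (.rot (.cut 1 1 (.rot (.rot (.cut 3 4 .N (.rot (.cut 3 1 (.rot (.rot (.cut 1 14 (.R 11 0 true) .P))) (.R 11 0 true)))))) (.rot (.cut 2 1 (.rot (.rot (.cut 1 3 (.rot (.cut 3 4 (.rot (.rot (.cut 2 1 (.R 11 0 true) .P))) (.R 11 0 true))) .P))) (.R 11 0 true)))))) (.rot (.cut 9 1 (.rot (.rot (.cut 1 24 (.rot (.rot (.cut 1 1 (.rot (.rot (.cut 1 1 .N (.rot (.cut 2 1 (.rot (.rot (.cut 1 3 (.R 11 0 true) (.rot (.cut 4 1 .P (.cut 1 2 .P (.R 11 0 true))))))) .N))))) .N))) (.cut 1 48 (.rot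 (.cut 1 3 (.rot (.rot (.cut 2 1 (.rot (.rot (.cut 1 4 (.cut 2 1 .P (.R 11 0 true)) (.R 11 0 true)))) .P))) (.rot (.cut 1 1 (.cut 3 1 .P (.rot (.cut 2 1 (.R 11 0 true) .P))) (.rot (.cut 4 1 .N (.rot (.cut 1 2 (.rot (.rot (.cut 1 2 (.R 11 0 true) .P))) (.R 11 0 true))))))))) .P)))) (.rot (.cut 4 3 (.cut 14 1 .P (.rot (.cut 1 6 (.R 11 0 true) (.cut 1 12 (.rot (.cut 1 2 (.rot (.rot (.cut 2 1 (.R 11 0 true) .P))) (.R 11 0 true))) .P)))) (.rot (.cut 1 1 .N (.rot (.cut 6 1 (.rot (.rot (.cut 1 2 .N (.rot (.cut 12 1 (.rot (.rot (.cut 1 4 (.cut 2 1 (.rot (.rot (.cut 1 5 .P (.R 11 0 true)))) .P) .P))) (.cut 1 2 (.rot (.rot (.cut 5 1 (.R 11 0 true) .P))) (.R 11 0 true))))))) .N))))))))))) (.rot (.cut 8 1 .P (.rot (.rot (.cut 3 1 (.rot (.rot (.cut 1 1 (.cut 3 1 .P (.rot (.rot (.cut 1 1 (.rot (.rot (.cut 2 1 (.R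 11 0 true) .P))) (.rot (.cut 1 2 .P (.R 11 0 true))))))) (.cut 1 3 (.rot (.rot (.cut 1 2 .P (.R 11 0 true)))) .P)))) .P))))))))))))) (.rot (.cut 16777216 1 (.rot (.rot (.cut 1 1073741824 (.rot (.rot (.cut 24 1 .P (.rot (.cut 3 1 (.cut 8 1 .P (.cut 1 2 .P (.rot (.rot (.cut 8 1 (.rot (.rot (.cut 2 3 (.rot (.rot (.cut 1 12 (.rot (.rot (.cut 2 1 (.R 10 0 true) (.rot (.cut 3 1 .P (.R 10 0 true)))))) .N))) (.cut 1 8 (.rot (.rot (.cut 1 2 .P (.rot (.cut 2 1 (.R 10 0 true) .P))))) .P)))) (.cut 1 3 (.rot (.cut 1 22 (.rot (.rot (.cut 3 1 (.rot (.rot (.cut 1 5 (.rot (.rot (.cut 1 1 (.rot (.rot (.cut 1 2 (.R 10 0 true) (.rot (.cut 2 1 .P (.R 10 0 true)))))) .N))) (.rot (.rot (.cut 2 1 .P (.rot (.cut 1 10 (.cut 2 1 (.R 10 0 true) .P) .P)))))))) (.rot (.cut 2 1 (.cut 4 1 .P (.rot (.cut 1 2 (.R 10 0 true) .P)))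 (.rot (.cut 1 1 .N (.rot (.cut 2 1 (.rot (.rot (.cut 1 2 (.R 10 0 true) .P))) (.R 10 0 true)))))))))) (.rot (.cut 12 1 .N (.rot (.cut 5 1 (.rot (.rot (.cut 1 3 (.R 10 0 true) (.rot (.cut 10 1 .P (.cut 1 2 .P (.R 10 0 true))))))) .N)))))) (.rot (.cut 1 4 (.cut 2 1 .P (.rot (.cut 3 1 (.R 10 0 true) (.cut 1 2 (.R 10 0 true) .P)))) (.rot (.cut 22 1 .N (.rot (.cut 1 3 (.rot (.rot (.cut 1 2 .N (.cut 1 4 (.R 10 0 true) (.rot (.cut 2 1 .P (.R 10 0 true))))))) .N)))))))))))) (.rot (.cut 3 1 (.rot (.rot (.cut 1 3 (.rot (.rot (.cut 2 3 (.cut 4 1 .P (.rot (.cut 1 5 (.rot (.rot (.cut 1 2 .P (.rot (.cut 2 1 (.rot (.rot (.cut 1 4 (.cut 2 1 .P (.R 10 0 true)) (.R 10 0 true)))) .P))))) .P))) (.rot (.cut 2 1 .N (.cut 1 2 (.rot (.cut 2 1 (.rot (.rot (.cut 2 1 (.R 10 0 true) .P))) (.R 10 0 true))) (.rot (.cut 5 1 .P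 (.rot (.cut 1 2 (.rot (.rot (.cut 1 2 .P (.R 10 0 true)))) .P)))))))))) .P))) (.rot (.rot (.cut 3 2 (.rot (.rot (.cut 3 2 (.rot (.rot (.cut 1 15 (.R 10 0 true) (.rot (.cut 8 1 .P (.rot (.cut 4 1 (.rot (.rot (.cut 1 2 (.rot (.rot (.cut 1 4 (.R 10 0 true) .P))) (.R 10 0 true)))) (.rot (.rot (.cut 4 1 .P (.R 10 0 true))))))))))) .N))) (.rot (.rot (.cut 15 1 .P (.rot (.cut 1 4 (.rot (.cut 1 1 (.rot (.rot (.cut 2 1 (.cut 4 1 (.R 10 0 true) (.cut 1 2 (.R 10 0 true) .P)) .P))) (.R 10 0 true))) .P))))))))))))))) .P))) (.rot (.rot (.cut 1 24 .P .P)))))))) (.rot (.rot (.cut 1 13 .P .P)))))) (.rot (.cut 1 1024 .P (.rot (.cut 67108864 1 (.cut 1073741824 1 (.rot (.rot (.cut 1 8192 (.cut 1 1 (.rot (.rot (.cut 1 524288 (.cut 3 1 .P .P) .P))) .P) .P))) (.rot (.rot (.cut 524288 1 .P (.rot (.cut 1 3 (.rot (.rot (.cut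 1 3 (.cut 2 1 (.rot (.rot (.cut 3 4 (.cut 8 1 (.R 10 0 true) (.rot (.rot (.cut 6 1 .P (.rot (.cut 1 2 (.cut 2 1 (.R 10 0 true) .P) .P)))))) .P))) (.R 10 0 true)) (.rot (.cut 3 1 .P (.cut 1 2 (.cut 2 1 .P (.cut 1 2 .P (.R 10 0 true))) (.R 10 0 true))))))) (.cut 1 8 (.rot (.rot (.cut 4 3 .P (.rot (.cut 2 1 (.rot (.rot (.cut 1 8 (.cut 2 1 .P (.rot (.cut 1 4 (.rot (.rot (.cut 1 2 .P (.R 10 0 true)))) .P))) (.rot (.cut 4 1 .N (.cut 1 2 (.R 10 0 true) (.rot (.cut 4 1 .P (.R 10 0 true))))))))) .P))))) .P))))))) (.cut 1 13 (.rot (.rot (.cut 524288 1 .P (.rot (.cut 4 1 (.rot (.cut 1 3 (.rot (.rot (.cut 12 1 (.rot (.cut 1 1 (.rot (.rot (.cut 24 1 (.rot (.rot (.cut 1 62 (.R 11 0 true) (.rot (.cut 48 1 .P (.cut 1 2 .P (.R 11 0 true))))))) (.R 11 0 true)))) .P)) (.rot (.cut 3 1 (.rot (.rot (.cut 1 2 (.R 11 0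 true) .P))) (.rot (.cut 1 1 .P (.R 11 0 true)))))))) .P)) (.rot (.rot (.cut 3 1 .P .P)))))))) .P))))))))))))

theorem c4 : Covered packed FP FN O (0, -1, 0) (0, -1, 5) (1, 0, 0) :=
  Tr.check_sound t4 (by decide +kernel)

end Pool.Agent.Rohlin.Octic.O13
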