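import Pool.Agent.Rohlin.Octic.O13.Ovals

/-!
# The octic O13: subdivision trees, part 5
-/

set_option autoImplicit false

namespace Pool.Agent.Rohlin.Octic.O13

open Pool.Agent.Rohlin.Cone

/-- tree -/
def t5 : Tr :=
  (.rot (.cut 1 2048 (.rot (.rot (.cut 1 16384 (.rot (.cut 1 9 (.rot (.rot (.cut 128 1 (.rot (.rot (.cut 1 512 (.rot (.rot (.cut 2 1 .N (.rot (.cut 8 1 (.rot (.rot (.cut 1 5 .N (.rot (.cut 21 1 (.rot (.rot (.cut 1 11 (.R 4 0 true) (.cut 1 22 (.cut 2 1 (.R 4 0 true) .P) .P)))) (.R 4 0 true)))))) .N))))) (.cut 1 4096 .N (.rot (.cut 512 1 (.rot (.cut 8 1 (.rot (.cut 1 16384 (.rot (.cut 1 30 (.rot (.rot (.cut 2 1 (.R 4 0 true) .P))) (.R 4 0 true))) (.rot (.cut 1024 1 .P (.rot (.cut 30 1 (.rot (.rot (.cut 1 2 .P (.R 4 0 true)))) .P)))))) (.rot (.cut 1 8192 (.cut 2 1 .N (.rot (.cut 1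 1 (.rot (.cut 1 1 (.rot (.cut 1 4 (.rot (.cut 1 4 (.rot (.rot (.cut 2 1 (.R 4 0 true) .P))) (.R 4 0 true))) (.rot (.cut 2 1 .P (.rot (.cut 4 1 (.rot (.rot (.cut 1 2 .P (.R 4 0 true)))) .P)))))) (.rot (.cut 1 2 (.cut 2 1 (.R 4 0 true) (.rot (.cut 1 1 .P (.R 4 0 true)))) (.rot (.cut 4 1 .P (.cut 1 2 .P (.rot (.cut 1 1 (.R 4 0 true) .P))))))))) .N))) (.rot (.cut 16384 1 .P (.cut 1 2 .P (.rot (.cut 1 1 (.R 4 0 true) (.cut 1 2 (.rot (.cut 1 1 (.rot (.rot (.cut 2 1 (.R 4 0 true) .P))) (.R 4 0 true))) .P)))))))))) .N)))))) (.rot (.cut 19 1 (.rot (.cut 1 2 (.rot (.rot (.cut 64 1 .N (.rot (.cut 5 1 (.rot (.rot (.cut 1 2 (.cut 2 1 (.rot (.rot (.cut 1 4 (.cut 2 1 .N (.R 2 0 true)) (.cut 1 8 (.R 2 0 true) (.rot (.cut 4 1 .N (.R 2 0 true))))))) .N) .N))) (.cut 1 3 (.rot (.rot (.cut 4 1 (.rot (.rot (.cut 1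 4 (.R 2 0 true) (.rot (.cut 8 1 .N (.R 2 0 true)))))) (.rot (.cut 3 1 (.rot (.rot (.cut 1 2 (.R 2 0 true) (.rot (.cut 5 1 .N (.cut 1 2 .N (.rot (.rot (.cut 4 1 (.R 2 0 true) (.rot (.cut 1 4 .N (.R 2 0 true)))))))))))) .P))))) (.rot (.rot (.cut 4 1 .N (.rot (.cut 1 7 (.cut 2 1 (.R 2 0 true) (.rot (.rot (.cut 2 1 .N (.rot (.cut 1 2 (.rot (.cut 1 1 (.rot (.rot (.cut 2 1 (.R 2 0 true) .N))) (.R 2 0 true))) .N)))))) .N))))))))))) .N)) (.rot (.rot (.cut 2 1 (.rot (.rot (.cut 1 2 (.rot (.rot (.cut 1 6 (.cut 2 1 (.rot (.rot (.cut 3 1 .N (.rot (.cut 5 1 (.cut 11 1 .N (.rot (.cut 1 4 (.rot (.rot (.cut 1 2 (.cut 2 1 .N (.rot (.rot (.cut 4 1 (.rot (.rot (.cut 1 2 (.R 2 0 true) (.cut 1 4 (.R 2 0 true) .N)))) (.R 2 0 true))))) (.rot (.rot (.cut 2 1 (.rot (.rot (.cut 3 1 .P (.rot (.cut 4 1 (.rot (.rot (.cut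 1 2 (.R 2 0 true) (.cut 1 4 (.R 2 0 true) .N)))) (.R 2 0 true)))))) .P)))))) .N))) (.cut 1 2 (.rot (.cut 1 5 (.rot (.rot (.cut 2 1 (.R 2 0 true) (.cut 1 2 (.R 2 0 true) .N)))) (.rot (.cut 4 1 .N (.rot (.rot (.cut 2 3 (.R 2 0 true) (.rot (.cut 1 3 (.rot (.rot (.cut 1 6 (.R 2 0 true) (.rot (.cut 2 1 (.cut 4 1 .N (.R 2 0 true)) (.R 2 0 true)))))) (.R 2 0 true)))))))))) .N)))))) .N) (.rot (.cut 5 1 (.rot (.rot (.cut 1 14 .N (.rot (.cut 11 1 (.rot (.rot (.cut 1 25 (.R 4 0 true) (.rot (.cut 22 1 .P (.cut 1 2 .P (.R 4 0 true))))))) .N))))) .N))))) .N))) (.rot (.rot (.cut 6 1 (.rot (.rot (.cut 1 4 .N (.rot (.cut 14 1 (.rot (.rot (.cut 1 10 .N (.rot (.cut 25 1 (.rot (.rot (.cut 1 19 (.R 4 0 true) .P))) (.R 4 0 true)))))) .N))))) (.rot (.cut 1 5 (.rot (.rot (.cut 1 2 .N (.cut 1 5 (.cut 2 1 .N (.rot (.cut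 1 5 (.rot (.rot (.cut 1 2 (.rot (.rot (.cut 1 2 (.R 2 0 true) (.rot (.cut 2 1 .N (.R 2 0 true)))))) .P))) (.cut 1 10 (.rot (.rot (.cut 2 1 .N (.rot (.rot (.cut 4 3 (.rot (.rot (.cut 2 1 (.cut 4 1 (.R 2 0 true) .N) .N))) (.R 2 0 true))))))) .N)))) (.rot (.cut 3 1 (.rot (.rot (.cut 1 11 (.cut 2 1 .P (.rot (.cut 1 4 (.rot (.rot (.cut 1 2 (.R 2 0 true) (.rot (.cut 2 1 .N (.R 2 0 true)))))) .P))) (.rot (.cut 7 1 .N (.cut 1 2 (.cut 2 1 .N (.rot (.cut 1 1 (.rot (.rot (.cut 1 2 .N (.R 2 0 true)))) .N))) (.rot (.cut 4 1 .P (.cut 1 2 (.R 2 0 true) (.rot (.cut 1 1 .N (.R 2 0 true)))))))))))) (.rot (.cut 5 1 (.rot (.rot (.cut 1 3 .P (.rot (.cut 10 1 (.rot (.rot (.cut 1 5 (.rot (.rot (.cut 1 4 .N (.rot (.cut 2 1 (.cut 4 1 (.rot (.rot (.cut 1 8 .N (.R 2 0 true)))) .N) .N))))) .N))) (.cut 1 2 (.rot (.rot (.cut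 4 1 (.rot (.rot (.cut 1 7 .N (.rot (.cut 8 1 (.R 2 0 true) .N))))) .N))) (.cut 1 4 (.rot (.rot (.cut 7 1 (.R 2 0 true) .N))) (.R 2 0 true)))))))) .P)))))))) .N))))))))))))) (.rot (.cut 1 26 (.rot (.rot (.cut 1 128 (.rot (.cut 1 64 .P (.rot (.cut 1 1 (.rot (.cut 5 1 (.rot (.rot (.cut 15 1 (.cut 64 1 (.rot (.cut 3 2 (.rot (.rot (.cut 128 1 (.rot (.rot (.cut 1 1024 (.R 4 0 true) .P))) (.R 4 0 true)))) .P)) (.rot (.cut 7 1 .N (.rot (.cut 2 3 (.rot (.rot (.cut 1 2 (.R 4 0 true) .P))) (.R 4 0 true)))))) (.rot (.rot (.cut 1 7 (.rot (.rot (.cut 9 1 (.R 4 0 true) (.rot (.cut 2 1 .P (.R 4 0 true)))))) .N)))))) .P)) (.rot (.rot (.cut 1 5 .P (.rot (.cut 1 2 (.rot (.cut 37 1 (.rot (.rot (.cut 2 1 (.R 4 0 true) .P))) (.rot (.cut 1 9 .P (.R 4 0 true))))) .P))))))))) .P))) (.rot (.cut 512 1 (.rot (.rot (.cut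 1 256 (.cut 3 1 (.rot (.rot (.cut 1 36 .N (.rot (.cut 9 1 (.rot (.rot (.cut 1 128 .N (.rot (.cut 18 1 (.rot (.rot (.cut 1 256 (.R 4 0 true) (.rot (.cut 35 1 .P (.R 4 0 true)))))) .N))))) .N))))) .N) (.rot (.cut 4096 1 (.rot (.rot (.cut 1 1024 (.cut 3 1 .N (.cut 1 2 .N (.rot (.cut 5 1 (.rot (.rot (.cut 1 4 (.rot (.cut 4 3 (.rot (.rot (.cut 2 1 (.cut 4 1 (.R 4 0 true) .P) .P))) (.R 4 0 true))) (.rot (.cut 10 1 .P (.rot (.cut 3 4 (.rot (.rot (.cut 1 2 .P (.R 4 0 true)))) .P))))))) .N)))) (.rot (.cut 8192 1 .P (.cut 1 2 (.cut 2 1 .P (.rot (.cut 1 21 (.rot (.rot (.cut 1 2 .P (.rot (.cut 2 1 (.R 4 0 true) .P))))) .P))) (.rot (.cut 1 5 .N (.rot (.cut 21 1 (.rot (.rot (.cut 1 10 (.rot (.rot (.cut 1 4 .P (.rot (.cut 2 1 (.R 4 0 true) .P))))) .P))) (.rot (.rot (.cut 4 1 (.R 4 0 true) (.rot (.cut 1 2 .P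 (.R 4 0 true)))))))))))))))) .N))))) (.cut 1 8 (.rot (.rot (.cut 36 1 (.rot (.rot (.cut 1 512 .N (.rot (.cut 128 1 (.rot (.rot (.cut 1 1024 .N (.rot (.cut 256 1 (.rot (.rot (.cut 1 2048 (.R 4 0 true) .P))) (.R 4 0 true)))))) .N))))) .N))) (.rot (.cut 1 1 (.rot (.rot (.cut 1 21 (.R 4 0 true) (.rot (.cut 2 1 .P (.cut 1 2 .P (.R 4 0 true))))))) (.rot (.cut 512 1 (.rot (.rot (.cut 1 15 .N (.cut 1 64 .N (.rot (.cut 1024 1 (.rot (.rot (.cut 1 128 (.R 4 0 true) (.rot (.cut 2048 1 .P (.R 4 0 true)))))) .N)))))) .N))))))))))) (.rot (.cut 16384 1 (.rot (.rot (.cut 1 2097152 (.rot (.cut 1 3 (.rot (.cut 1 12 (.rot (.rot (.cut 3 1 (.cut 7 1 .N (.cut 1 2 .N (.rot (.rot (.cut 5 1 (.rot (.rot (.cut 1 1 (.rot (.rot (.cut 1 14 (.cut 2 1 (.rot (.rot (.cut 5 1 .P (.rot (.cut 4 1 (.rot (.rot (.cut 1 2 (.R 1 0 true)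 .N))) (.R 1 0 true)))))) .P) .P))) (.cut 1 2 (.rot (.cut 3 1 (.R 1 0 true) (.rot (.cut 1 5 (.cut 2 1 .N (.R 1 0 true)) (.R 1 0 true))))) (.rot (.cut 13 1 (.rot (.rot (.cut 1 5 (.cut 2 1 (.rot (.rot (.cut 1 5 .N (.cut 1 10 .N (.R 1 0 true))))) .N) .N))) (.rot (.cut 1 3 .N (.cut 1 6 .N (.rot (.cut 5 1 (.cut 10 1 (.R 1 0 true) .N) .N))))))))))) (.rot (.rot (.cut 14 1 (.rot (.rot (.cut 1 5 (.rot (.rot (.cut 1 6 .P (.rot (.cut 2 1 (.rot (.rot (.cut 1 12 (.cut 2 1 (.R 1 0 true) .N) .N))) (.R 1 0 true)))))) .P))) (.rot (.cut 1 3 (.rot (.rot (.cut 1 2 (.rot (.rot (.cut 1 1 (.rot (.rot (.cut 1 2 (.R 1 0 true) (.rot (.cut 2 1 .N (.R 1 0 true)))))) .P))) (.cut 1 4 (.rot (.rot (.cut 2 1 .N (.R 1 0 true)))) .N)))) (.rot (.cut 6 1 (.cut 12 1 .N (.rot (.cut 1 2 (.rot (.rot (.cut 1 2 .N (.rot (.cut 2 1 (.R 1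 0 true) .N))))) .N))) (.rot (.cut 1 1 .P (.cut 1 2 (.R 1 0 true) (.rot (.cut 2 1 .N (.cut 1 2 .N (.R 1 0 true))))))))))))))))))) (.rot (.cut 3 1 (.rot (.rot (.cut 2 3 (.rot (.rot (.cut 1 2 .N (.rot (.cut 3 1 (.cut 6 1 (.rot (.rot (.cut 1 4 .N (.rot (.cut 12 1 (.rot (.rot (.cut 1 8 (.cut 2 1 .N (.R 1 0 true)) (.R 1 0 true)))) .N))))) .N) .N))))) .N))) (.rot (.cut 1 1 (.rot (.cut 1 1 (.rot (.cut 1 4 (.rot (.rot (.cut 2 1 .P (.rot (.cut 2 1 (.rot (.rot (.cut 1 2 .P (.rot (.cut 4 1 (.rot (.rot (.cut 1 4 (.rot (.rot (.cut 1 2 .N (.rot (.cut 2 1 (.R 1 0 true) .N))))) .N))) (.cut 1 2 (.rot (.rot (.cut 2 1 (.R 1 0 true) .N))) (.R 1 0 true))))))) .P))))) (.rot (.cut 2 1 (.rot (.rot (.cut 1 8 .P (.cut 1 16 (.R 1 0 true) (.rot (.cut 5 1 .N (.cut 1 2 .N (.R 1 0 true)))))))) .P)))) (.rot (.cut 1 2 .N (.rot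 (.cut 4 1 (.rot (.rot (.cut 1 4 (.rot (.rot (.cut 1 2 (.R 1 0 true) (.rot (.cut 2 1 .N (.cut 1 2 .N (.R 1 0 true))))))) (.rot (.cut 8 1 (.rot (.rot (.cut 1 8 .P (.rot (.cut 16 1 (.rot (.rot (.cut 1 17 (.cut 2 1 (.R 1 0 true) .N) .N))) (.R 1 0 true)))))) .P))))) (.rot (.rot (.cut 2 1 .N (.rot (.cut 1 2 (.R 1 0 true) (.cut 1 4 (.cut 2 1 (.R 1 0 true) .N) .N)))))))))))) (.rot (.rot (.cut 1 1 (.rot (.rot (.cut 2 1 (.cut 4 1 (.rot (.rot (.cut 1 4 (.cut 2 1 .N (.rot (.cut 1 1 (.R 1 0 true) .N))) (.rot (.cut 8 1 .P (.rot (.cut 1 1 (.rot (.rot (.cut 1 2 (.R 1 0 true) .N))) (.R 1 0 true)))))))) .N) .N))) (.cut 1 2 (.rot (.rot (.cut 4 1 .P (.rot (.cut 2 1 (.rot (.rot (.cut 1 2 (.R 1 0 true) (.rot (.cut 4 1 .N (.cut 1 2 .N (.R 1 0 true))))))) .P))))) .P))))))))))) .N)) (.rot (.cut 1 4 .N (.rot (.cut 12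 1 (.rot (.rot (.cut 1 9 (.cut 3 2 .N .N) .N))) (.cut 1 3 (.rot (.rot (.cut 8 1 .N (.rot (.cut 2 1 (.rot (.rot (.cut 1 2 .N (.rot (.rot (.cut 1 1 (.rot (.rot (.cut 4 1 (.rot (.rot (.cut 1 9 (.rot (.rot (.cut 1 1 (.R 1 0 true) .N))) (.rot (.cut 8 1 (.cut 17 1 .N (.cut 1 2 .N (.R 1 0 true))) (.R 1 0 true)))))) (.cut 1 2 (.rot (.rot (.cut 1 1 .N (.rot (.cut 2 1 (.R 1 0 true) .N))))) .N)))) .N)))))) .N))))) .N))))))) (.rot (.cut 1048576 1 (.rot (.rot (.cut 1 33554432 (.rot (.cut 1 5 (.rot (.cut 1 4 (.rot (.rot (.cut 3 2 .N (.rot (.cut 2 1 (.rot (.rot (.cut 1 3 (.rot (.rot (.cut 1 1 (.R 0 0 true) (.rot (.cut 2 1 .N (.R 0 0 true)))))) .P))) (.cut 1 2 (.rot (.rot (.cut 1 1 .N (.rot (.cut 2 1 (.R 0 0 true) .N))))) .N)))))) .N)) (.rot (.cut 1 1 (.rot (.rot (.cut 1 6 (.rot (.rot (.cut 2 1 .N (.rot (.cut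 3 2 (.cut 6 1 (.R 0 0 true) .N) .N))))) .N))) (.rot (.cut 4 1 (.rot (.rot (.cut 1 2 (.rot (.rot (.cut 1 8 .N (.rot (.cut 3 1 (.rot (.rot (.cut 1 16 (.rot (.rot (.cut 3 1 (.rot (.cut 1 1 (.rot (.rot (.cut 6 1 (.R 1 0 true) .N))) (.R 1 0 true))) .N))) (.R 1 0 true)))) (.cut 1 3 (.rot (.rot (.cut 1 3 .N (.rot (.cut 2 1 (.rot (.rot (.cut 1 6 .N (.rot (.cut 4 1 (.cut 9 1 (.R 1 0 true) .N) .N))))) .N))))) .N)))))) .N))) (.cut 1 2 (.rot (.cut 1 16 (.rot (.rot (.cut 2 1 .N (.rot (.cut 3 1 (.rot (.rot (.cut 1 2 .N (.R 0 0 true)))) .N))))) (.rot (.cut 8 1 .N .N)))) (.rot (.cut 1 2 (.R 0 0 true) (.rot (.cut 16 1 .N (.cut 1 3 .N (.R 0 0 true))))))))))))) (.rot (.cut 8388608 1 (.cut 16777216 1 .N (.rot (.cut 3 1 (.cut 4 1 (.rot (.rot (.cut 3 4 (.rot (.rot (.cut 1 5 (.R 0 0 true) (.rot (.cut 5 1 .N (.cut 1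 2 .N (.R 0 0 true))))))) .P))) (.rot (.rot (.cut 5 1 .N (.rot (.cut 1 2 (.R 0 0 true) .N)))))) .N))) (.rot (.cut 5 1 (.cut 6 1 (.rot (.rot (.cut 3 4 (.rot (.rot (.cut 1 9 .N (.rot (.cut 5 1 (.rot (.rot (.cut 1 17 (.cut 2 1 .N (.rot (.cut 1 3 (.R 0 0 true) .N))) (.rot (.cut 10 1 .P (.rot (.cut 3 1 (.rot (.rot (.cut 1 2 (.R 0 0 true) .N))) (.R 0 0 true)))))))) .N))))) .N))) (.rot (.rot (.cut 9 1 (.rot (.cut 1 4 (.rot (.rot (.cut 17 1 .P (.cut 1 2 (.R 0 0 true) (.rot (.rot (.cut 2 1 (.rot (.rot (.cut 2 1 .N (.cut 1 2 .N (.R 0 0 true))))) .N))))))) .P)) (.rot (.cut 2 3 .N (.cut 1 6 .N (.rot (.cut 4 1 (.R 0 0 true) (.cut 1 2 (.cut 2 1 (.R 0 0 true) .N) .N)))))))))) (.rot (.cut 1 3 (.rot (.rot (.cut 2 3 (.cut 3 1 (.rot (.rot (.cut 4 3 (.rot (.rot (.cut 1 8 (.R 0 0 true) (.rot (.cut 7 1 .N (.R 0 0 true))))))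 .P))) (.rot (.rot (.cut 8 1 .N (.rot (.cut 1 2 (.R 0 0 true) .N)))))) .N))) (.cut 1 4 (.rot (.rot (.cut 3 4 .P (.rot (.cut 2 1 (.rot (.rot (.cut 1 7 (.R 0 0 true) .N))) (.R 0 0 true)))))) .P)))))))))) (.rot (.cut 3 1 .N (.rot (.cut 1 1 (.rot (.rot (.cut 1 3 (.cut 3 2 .N (.cut 1 3 .N (.cut 1 6 .N (.cut 1 12 .N (.R 1 0 true))))) (.rot (.cut 2 1 (.rot (.rot (.cut 1 7 (.cut 2 1 (.rot (.rot (.cut 3 2 .N (.rot (.cut 5 1 (.rot (.rot (.cut 1 5 (.cut 2 1 (.rot (.rot (.cut 1 2 .P (.rot (.cut 4 1 (.rot (.rot (.cut 1 4 (.R 1 0 true) .N))) (.R 1 0 true)))))) .P) .P))) (.cut 1 2 (.rot (.rot (.cut 2 1 (.cut 4 1 .N (.R 1 0 true)) (.R 1 0 true)))) .N)))))) .N) .N))) (.cut 1 3 (.rot (.rot (.cut 2 3 (.cut 5 1 .P (.cut 1 2 .P (.rot (.cut 1 3 (.rot (.rot (.cut 1 4 (.R 1 0 true) .N))) (.R 1 0 true))))) (.rot (.cut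 3 1 .N (.cut 1 2 .N (.cut 1 4 .N (.rot (.cut 3 1 (.rot (.rot (.cut 1 9 .N (.R 1 0 true)))) .N))))))))) (.R 1 0 true))))))) .N))))))))) (.rot (.cut 9 1 (.rot (.rot (.cut 1 22 (.cut 6 1 (.rot (.rot (.cut 1 3 (.cut 2 1 .P (.R 4 0 true)) (.R 4 0 true)))) .P) .P))) (.cut 1 19 (.cut 4 1 (.rot (.rot (.cut 3 1 .N (.rot (.cut 10 1 (.rot (.rot (.cut 1 2 (.R 4 0 true) (.rot (.cut 19 1 .P (.R 4 0 true)))))) .N))))) .N) (.rot (.cut 4 1 (.rot (.rot (.cut 1 64 (.cut 2 1 .N (.rot (.cut 1 13 (.rot (.rot (.cut 1 2 .N (.rot (.cut 2 1 (.rot (.rot (.cut 1 4 .N .N))) .N))))) .N))) (.rot (.cut 9 1 .N (.cut 2 3 .N (.rot (.cut 13 1 .N (.cut 1 2 .N .N))))))))) .N)))))))))) (.rot (.cut 524288 1 (.rot (.rot (.cut 1 33554432 .P (.rot (.cut 2147483648 1 (.rot (.rot (.cut 1 4294967296 .P (.rot (.cut 17179869184 1 (.cut 17179869184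 1 (.rot (.rot (.cut 1 4294967296 (.R 7 2 true) .N))) (.R 7 2 true)) .P))))) .P))))) (.cut 1 2048 .P (.rot (.cut 26 1 (.rot (.rot (.cut 1 32768 (.cut 4 1 (.cut 6 1 .P (.cut 1 2 .P (.rot (.cut 1 1024 (.rot (.rot (.cut 1 4 .P (.R 4 0 true)))) .P)))) (.rot (.cut 1 1024 .N (.cut 1 2048 .N (.cut 1 4096 (.R 4 0 true) (.rot (.cut 1024 1 .P (.R 4 0 true)))))))) (.rot (.cut 256 1 (.rot (.rot (.cut 1 131072 .N (.rot (.cut 1024 1 (.rot (.rot (.cut 1 262144 (.cut 2 1 (.rot (.rot (.cut 128 1 .P (.rot (.cut 4 1 (.R 4 0 true) (.cut 1 2 (.cut 2 1 (.R 4 0 true) .P) .P)))))) .P) .P))) (.cut 1 3 (.cut 2 1 (.rot (.rot (.cut 1 128 (.R 4 0 true) (.rot (.cut 4 1 .P (.cut 1 2 .P (.cut 1 4 .P (.R 4 0 true)))))))) .N) .N)))))) (.cut 1 3 .N (.rot (.cut 1024 1 (.rot (.rot (.cut 1 9 .N (.rot (.cut 2048 1 (.rot (.rot (.cut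 1 18 .N (.rot (.cut 4096 1 (.rot (.rot (.cut 1 35 (.R 4 0 true) .P))) (.R 4 0 true)))))) .N))))) .N)))))))) .P)))))))

theorem c5 : Covered packed FP FN O (0, -1, 5) (0, 0, 1) (1, 0, 0) :=
  Tr.check_sound t5 (by decide +kernel)

end Pool.Agent.Rohlin.Octic.O13
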