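import Pool.Agent.Rohlin.Octic.O13.Ok
import Pool.Agent.Rohlin.Octic.O13.T0
import Pool.Agent.Rohlin.Octic.O13.T1
import Pool.Agent.Rohlin.Octic.O13.T2
import Pool.Agent.Rohlin.Octic.O13.T3
import Pool.Agent.Rohlin.Octic.O13.T4
import Pool.Agent.Rohlin.Octic.O13.T5
import Pool.Agent.Rohlin.Iso.Export

/-!
# The octic O13: the real scheme
-/

set_option autoImplicit false

namespace Pool.Agent.Rohlin.Octic.O13

open Pool.Agent.Rohlin.Cone

theorem n0 : Covered packed FP FN O (0, 1, 0) (0, 0, 1) (-1, 0, 0) := by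
  have e : comb 1 5 (0, 1, 0) (0, 0, 1) = ((0, 1, 5) : V3) := by decide +kernel
  exact Covered.cut 1 5 (by decide) (by decide) (e ▸ c1) (e ▸ c2)

theorem n1 : Covered packed FP FN O (-1, 0, 0) (0, 1, 0) (0, 0, 1) :=
  Covered.rot n0

theorem n2 : Covered packed FP FN O (0, -1, 0) (0, 0, 1) (1, 0, 0) := by
  have e : comb 1 5 (0, -1, 0) (0, 0, 1) = ((0, -1, 5) : V3) := by decide +kernel
  exact Covered.cut 1 5 (by decide) (by decide) (e ▸ c4) (e ▸ c5)

theorem n3 : Covered packed FP FN O (1, 0, 0) (0, -1, 0) (0, 0, 1) :=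
  Covered.rot n2

/-- the octic has the scheme `S13` -/
theorem real : IsRealScheme 8 S13 :=
  isRealScheme_of_cert mod3 brP brN ringForms oks (by decide) hS13 anti13 pairs
    c0 n1 c3 n3

/-- the discs of the ovals are star shaped -/
theorem star : ∃ (c : Fin S13.n → Fin 3 → ℝ) (Δ : Fin S13.n → Set RP2),
    StarDiscs (curveOf L mod3).real S13 c Δ :=
  starDiscs_of_cert mod3 brP brN ringForms oks (by decide) hS13 pairs
    c0 n1 c3 n3

end Pool.Agent.Rohlin.Octic.O13
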