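import Pool.Agent.Rohlin.Octic.O13.Ovals

/-!
# The octic O13: the checks of the ovals
-/

set_option autoImplicit false

namespace Pool.Agent.Rohlin.Octic.O13

open Pool.Agent.Rohlin.Cone

theorem ringForms : ringFormsOk L O = true := by decide +kernel

theorem pairs : pairsOk ins13 (O.map Prod.fst) = true := by decide +kernel

theorem ok0 : OvalOk packed FP FN o0 :=
  ovalCheck_sound (sQ := [[.S, (.cut 1 7 .S .S), .S, .S]])
    (sK := []) (by decide +kernel)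

theorem ok1 : OvalOk packed FP FN o1 :=
  ovalCheck_sound (sQ := [[.S, .S, .S, .S]])
    (sK := []) (by decide +kernel)

theorem ok2 : OvalOk packed FP FN o2 :=
  ovalCheck_sound (sQ := [[.S, (.cut 1 76 (.cut 3 1 (.cut 6 1 .S .S) .S) .S), (.cut 1 1 .S .S), .S]])
    (sK := []) (by decide +kernel)

theorem ok3 : OvalOk packed FP FN o3 :=
  ovalCheck_sound (sQ := [[.S, .S, .S, .S]])
    (sK := []) (by decide +kernel)

theorem ok4 : OvalOk packed FP FN o4 :=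
  ovalCheck_sound (sQ := [[.S, .S, .S, (.cut 1 3 .S (.cut 1 3 .S .S)), (.cut 1 27 (.cut 5 1 (.cut 14 1 (.cut 31 1 (.cut 59 1 .S .S) .S) .S) .S) .S)]])
    (sK := [[(.cut 2 1 .S (.cut 1 2 .S (.cut 1 3 .S (.cut 1 3 (.cut 2 1 .S .S) .S)))), (.cut 1 123 (.cut 5 1 (.cut 15 1 (.cut 35 1 .S .S) .S) .S) .S), .S, .S]]) (by decide +kernel)

theorem ok5 : OvalOk packed FP FN o5 :=
  ovalCheck_sound (sQ := [[.S, .S, .S, .S]])
    (sK := []) (by decide +kernel)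

theorem ok6 : OvalOk packed FP FN o6 :=
  ovalCheck_sound (sQ := [[.S, .S, .S, .S]])
    (sK := []) (by decide +kernel)

theorem ok7 : OvalOk packed FP FN o7 :=
  ovalCheck_sound (sQ := [[.S, .S, (.cut 125980 1 (.cut 339277 1 (.cut 530491 1 .S (.I 1)) (.I 1)) (.I 1)), (.cut 1 2 (.I 2) (.cut 1 12 (.I 2) (.cut 1 53 (.I 2) (.cut 1 194 (.I 2) (.cut 1 625 (.I 2) (.cut 1 1811 (.I 2) (.cut 1 4788 (.I 2) (.cut 1 11688 (.I 2) (.cut 1 26593 (.I 2) (.cut 1 56834 (.I 2) (.cut 1 114748 (.I 2) (.cut 1 219556 (.I 2) (.cut 1 397722 (.I 2) (.cut 1 795717 (.I 2) (.cut 1 1594597 (.I 2) .S)))))))))))))))], [.S, (.cut 13049466304 1 (.cut 151814474056 1 (.cut 451172255024 1 .S (.I 2)) (.I 2)) (.I 2)), (.cut 1 1579863 (.I 0) (.cut 1 4323867 (.I 0) .S))], [.S, (.cut 14 1 (.cut 90 1 (.cut 403 1 (.cut 1483 1 (.cut 4797 1 (.cut 13951 1 (.cut 37004 1 (.cut 90577 1 (.cut 206593 1 (.cut 442506 1 (.cut 895242 1 (.cut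 1716324 1 (.cut 3115719 1 (.cut 6212042 1 (.cut 12450207 1 .S (.I 0)) (.I 0)) (.I 0)) (.I 0)) (.I 0)) (.I 0)) (.I 0)) (.I 0)) (.I 0)) (.I 0)) (.I 0)) (.I 0)) (.I 0)) (.I 0)) (.I 0)), (.cut 1 8324646536 (.I 1) (.cut 1 98065401878 (.I 1) .S))]])
    (sK := [[.S, .S, (.cut 5 1 .S (.cut 1 3 .S (.cut 1 7 .S .S))), .S, .S]]) (by decide +kernel)

theorem ok8 : OvalOk packed FP FN o8 :=
  ovalCheck_sound (sQ := [[.S, .S, .S, .S]])
    (sK := []) (by decide +kernel)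

theorem ok9 : OvalOk packed FP FN o9 :=
  ovalCheck_sound (sQ := [[(.cut 109 1 .S (.cut 1 3 .S .S)), .S, .S, (.cut 1 3 .S .S)]])
    (sK := []) (by decide +kernel)

theorem ok10 : OvalOk packed FP FN o10 :=
  ovalCheck_sound (sQ := [[(.cut 2 1 .S .S), .S, .S, (.cut 1 3911 .S .S)]])
    (sK := []) (by decide +kernel)

theorem ok11 : OvalOk packed FP FN o11 :=
  ovalCheck_sound (sQ := [[.S, .S, .S, .S]])
    (sK := []) (by decide +kernel)

theorem ok12 : OvalOk packed FP FN o12 :=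
  ovalCheck_sound (sQ := [[(.cut 1 14 .S .S), .S, .S, .S]])
    (sK := []) (by decide +kernel)

theorem ok13 : OvalOk packed FP FN o13 :=
  ovalCheck_sound (sQ := [[.S, .S, .S, (.cut 1 4 (.cut 4 1 (.cut 10 1 (.cut 18 1 (.cut 27 1 .S .S) .S) .S) .S) .S)]])
    (sK := []) (by decide +kernel)

theorem ok14 : OvalOk packed FP FN o14 :=
  ovalCheck_sound (sQ := [[(.cut 4 1 .S .S), (.cut 1 6 .S .S), .S]])
    (sK := []) (by decide +kernel)

theorem ok15 : OvalOk packed FP FN o15 :=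
  ovalCheck_sound (sQ := [[(.cut 49 1 (.cut 115 1 .S .S) .S), (.cut 2 1 .S .S), .S]])
    (sK := []) (by decide +kernel)

theorem ok16 : OvalOk packed FP FN o16 :=
  ovalCheck_sound (sQ := [[.S, .S, .S, .S]])
    (sK := []) (by decide +kernel)

theorem ok17 : OvalOk packed FP FN o17 :=
  ovalCheck_sound (sQ := [[.S, .S, (.cut 1 2 .S .S), (.cut 2828 1 .S (.cut 1 3 .S (.cut 1 6 .S .S)))]])
    (sK := []) (by decide +kernel)

theorem ok18 : OvalOk packed FP FN o18 :=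
  ovalCheck_sound (sQ := [[.S, .S, .S, .S]])
    (sK := []) (by decide +kernel)

theorem ok19 : OvalOk packed FP FN o19 :=
  ovalCheck_sound (sQ := [[.S, .S, .S, .S]])
    (sK := []) (by decide +kernel)

theorem ok20 : OvalOk packed FP FN o20 :=
  ovalCheck_sound (sQ := [[.S, .S, .S, .S]])
    (sK := []) (by decide +kernel)

theorem oks : ∀ o ∈ O, OvalOk packed FP FN o.1 :=
  List.forall_mem_cons.2 ⟨ok0, List.forall_mem_cons.2 ⟨ok1, List.forall_mem_cons.2 ⟨ok2, List.forall_mem_cons.2 ⟨ok3, List.forall_mem_cons.2 ⟨ok4, List.forall_mem_cons.2 ⟨ok5, List.forall_mem_cons.2 ⟨ok6, List.forall_mem_cons.2 ⟨ok7, List.forall_mem_cons.2 ⟨ok8, List.forall_mem_cons.2 ⟨ok9, List.forall_mem_cons.2 ⟨ok10, List.forall_mem_cons.2 ⟨ok11, List.forall_mem_cons.2 ⟨ok12, List.forall_mem_cons.2 ⟨ok13, List.forall_mem_cons.2 ⟨ok14, List.forall_mem_cons.2 ⟨ok15, List.forall_mem_cons.2 ⟨ok16, List.forall_mem_cons.2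 ⟨ok17, List.forall_mem_cons.2 ⟨ok18, List.forall_mem_cons.2 ⟨ok19, List.forall_mem_cons.2 ⟨ok20, List.forall_mem_nil _⟩⟩⟩⟩⟩⟩⟩⟩⟩⟩⟩⟩⟩⟩⟩⟩⟩⟩⟩⟩⟩

end Pool.Agent.Rohlin.Octic.O13
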